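import Pool.Agent.H8.PS.Proj

/-!
MP_325208 (helper8): a rich plane of a maximal partial spread gives a `PlaneData`.
-/

set_option autoImplicit false

open Module Finset
open scoped Classical LinearAlgebra.Projectivization

namespace H8.PS

variable {F : Type*} [Field F] [Fintype F]
variable {V : Type*} [AddCommGroup V] [Module F V] [Fintype V] [FiniteDimensional F V]

theorem order_eq : Configuration.ProjectivePlane.order (ℙ F (Fin 3 → F)) (ℙ F (Fin 3 → F)) = Fintype.card F := by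
  have h1 := Configuration.ProjectivePlane.card_points (ℙ F (Fin 3 → F)) (ℙ F (Fin 3 → F))
  have h2 : Nat.card (ℙ F (Fin 3 → F)) = _ := Projectivization.card_of_finrank F (Fin 3 → F) (n := 3) (by simp)
  rw [Nat.card_eq_fintype_card, Nat.card_eq_fintype_card] at h2
  simp only [Finset.sum_range_succ, Finset.sum_range_zero, pow_zero, pow_one, zero_add] at h2
  rw [h2] at h1
  set a := Configuration.ProjectivePlane.order (ℙ F (Fin 3 → F)) (ℙ F (Fin 3 → F))
  have h3 : a * (a + 1) = Fintype.card F * (Fintype.card F + 1) := by nlinarith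
  by_contra hne
  rcases Nat.lt_or_gt_of_ne hne with h | h
  · have : a * (a + 1) < Fintype.card F * (Fintype.card F + 1) := Nat.mul_lt_mul'' h (by omega)
    omega
  · have : Fintype.card F * (Fintype.card F + 1) < a * (a + 1) := Nat.mul_lt_mul'' h (by omega)
    omega

/-- the hole points in coordinates -/
noncomputable def BB (S : Finset (Submodule F V)) (j : (Fin 3 → F) →ₗ[F] V) : Finset (ℙ F (Fin 3 → F)) :=
  Finset.univ.filter fun p => vec j p ∈ holes S fun W => W

theorem mem_BB {S : Finset (Submodule F V)} {j : (Fin 3 → F) →ₗ[F] V} {p : ℙ F (Fin 3 → F)} :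
    p ∈ BB S j ↔ vec j p ∈ holes S fun W => W := by simp [BB]

/-- **The bridge.** -/
theorem planeData (hV : finrank F V = 4) {S : Finset (Submodule F V)} (h2 : ∀ W ∈ S, finrank F W = 2)
    (hd : ∀ W ∈ S, ∀ W' ∈ S, W ≠ W' → W ⊓ W' = ⊥)
    (hmax : ∀ U : Submodule F V, finrank F U = 2 → U ∉ S → ∃ W ∈ S, U ⊓ W ≠ ⊥)
    {d : ℕ} (hdS : d + S.card = Fintype.card F ^ 2 + 1) (hdq : d < Fintype.card F)
    {δ : Dual F V} (hδ : δ ∈ holes S fun W => W.dualAnnihilator) {j : (Fin 3 → F) →ₗ[F] V} (J : Coord δ j) :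
    PlaneData (ℙ F (Fin 3 → F)) (ℙ F (Fin 3 → F)) (Fintype.card F) d (BB S j) := by
  have hq : 1 < Fintype.card F := Fintype.one_lt_card
  have hq1 : 0 < Fintype.card F - 1 := by omega
  have hcz : ((Fintype.card F - 1 : ℕ) : ℤ) = (Fintype.card F : ℤ) - 1 := by push_cast [hq.le]; ring
  have hq' : (0 : ℤ) < (Fintype.card F : ℤ) - 1 := by rw [← hcz]; exact_mod_cast hq1
  have hdz : (Fintype.card F : ℤ) ^ 2 + 1 - S.card = d := by
    have : ((d + S.card : ℕ) : ℤ) = ((Fintype.card F ^ 2 + 1 : ℕ) : ℤ) := by rw [hdS]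
    push_cast at this; linarith
  have hδ0 : δ ≠ 0 := (mem_holes.1 hδ).1
  have hK : finrank F (LinearMap.ker δ) = 3 := by
    have := Module.Dual.finrank_ker_add_one_of_ne_zero (K := F) (f := δ) hδ0
    omega
  -- the cone of holes on a line
  have hon : ∀ l : ℙ F (Fin 3 → F), ((holes S fun W => W).filter (· ∈ (Kl l).map j)).card =
      (on (BB S j) l).card * (Fintype.card F - 1) := by
    intro l
    have h3 := J.card_cone (T := (holes S fun W => W).filter (· ∈ (Kl l).map j))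
      (fun v hv => (mem_holes.1 (Finset.mem_filter.1 hv).1).1)
      (fun v hv c hc => by
        rw [Finset.mem_filter] at hv ⊢
        exact ⟨smul_mem_holes hv.1 hc, Submodule.smul_mem _ c hv.2⟩)
      (fun v hv => by
        rw [Finset.mem_filter] at hv
        obtain ⟨x, -, hx⟩ := Submodule.mem_map.1 hv.2
        exact (J.range v).2 ⟨x, hx⟩)
    rw [h3]
    congr 1
    apply congrArg
    ext p
    rw [on, Finset.mem_filter, Finset.mem_filter, Finset.mem_filter, mem_BB, J.vec_mem_map]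
    simp
  -- the configuration of a covered point of the plane
  have hconf : ∀ Z ∉ BB S j, ∃ E : V, Conf (F := F) S (vec j Z) E ∧ ∃ δ' ∈ DD S (vec j Z) E, ∃ c : F, c ≠ 0 ∧ δ' = c • δ := by
    intro Z hZ
    rw [mem_BB, mem_holes] at hZ
    push Not at hZ
    obtain ⟨W, hW, hZW⟩ := hZ (J.vec_ne Z)
    obtain ⟨E, hEW, hE⟩ : ∃ E ∈ W, E ∉ Submodule.span F {vec j Z} := by
      by_contra hcon3
      push Not at hcon3
      have h3 : W ≤ Submodule.span F {vec j Z} := hcon3
      have h4 := Submodule.finrank_mono h3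
      rw [h2 W hW, finrank_span_singleton (J.vec_ne Z)] at h4
      omega
    have C : Conf (F := F) S (vec j Z) E := ⟨hV, hd, h2, J.vec_ne Z, ⟨W, hW, hZW, hEW⟩, hE⟩
    exact ⟨E, C, _, C.norm hδ (J.vec_ker Z), _, inv_ne_zero (C.E_ne hδ (J.vec_ker Z)), rfl⟩
  -- the cone of tangent holes
  have hT : ∀ Z ∉ BB S j, ∃ (R : Finset V) (w : V → F) (k m : ℕ), Good R w k m ∧ Fintype.card F ≤ m + d ∧ 1 ≤ m ∧
      R.Nonempty ∧ (∀ v ∈ R, δ v = 0) ∧
      ∀ X, vec j X ∈ R ↔ X ∈ T (ℙ F (Fin 3 → F)) (BB S j) Z := by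
    intro Z hZ
    obtain ⟨E, C, δ', hδ', c, hc, hcδ⟩ := hconf Z hZ
    have hker : ∀ v, δ' v = 0 → δ v = 0 := by
      intro v hv
      rw [hcδ, LinearMap.smul_apply, smul_eq_mul] at hv
      exact (mul_eq_zero.1 hv).resolve_left hc
    obtain ⟨W, hW, hZW, -⟩ := C.ex
    have hD := card_DD hV hd h2 (E := E) hW hZW (J.vec_ne Z)
    rw [hdz] at hD
    have hD' : (DD S (vec j Z) E).card ≤ d := by exact_mod_cast hD
    have hDpos : 1 ≤ (DD S (vec j Z) E).card := Finset.card_pos.2 ⟨_, hδ'⟩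
    have hk1 : ((DD S (vec j Z) E).erase δ').card + 1 = (DD S (vec j Z) E).card := by
      rw [Finset.card_erase_of_mem hδ']; omega
    obtain ⟨m, hm⟩ : ∃ m, ((DD S (vec j Z) E).erase δ').card + m = Fintype.card F - 1 :=
      ⟨Fintype.card F - 1 - ((DD S (vec j Z) E).erase δ').card, by omega⟩
    refine ⟨RR S (vec j Z) E δ', _, _, m, C.good hδ' hm, by omega, by omega, C.RR_nonempty hδ' ?_,
      fun v hv => hker v (C.RR_ker hv), ?_⟩
    · rw [hdz]
      have : (d : ℤ) < Fintype.card F := by exact_mod_cast hdq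
      linarith
    intro X
    have hTdef : X ∈ T (ℙ F (Fin 3 → F)) (BB S j) Z ↔ X ∈ BB S j ∧
        ∀ l : ℙ F (Fin 3 → F), Z ∈ l → X ∈ l → ∀ Y ∈ BB S j, Y ∈ l → Y = X := mem_T
    rw [hTdef, mem_RR]
    constructor
    · rintro ⟨hX, hu⟩
      refine ⟨mem_BB.2 hX, fun l hZl hXl Y hY hYl => ?_⟩
      have hne : X ≠ Z := by rintro rfl; exact hZ (mem_BB.2 hX)
      have h5 := (line_span hne hZl hXl).1 hYl
      have h6 := C.tangent_of_unique hX hu _ (mem_BB.1 hY) (J.span_iff.2 h5)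
      exact J.eq_of_span h6
    · rintro ⟨hX, ht⟩
      refine ⟨mem_BB.1 hX, fun θ hθ hne h0 => hne ?_⟩
      have hXZ : X ≠ Z := by rintro rfl; exact hZ hX
      refine C.unique_of_tangent (mem_BB.1 hX) ?_ hδ' hθ ?_ h0
      · intro x hx hxs
        have hx0 : x ≠ 0 := (mem_holes.1 hx).1
        have hxδ : δ x = 0 := by
          obtain ⟨a, b, rfl⟩ := Submodule.mem_span_pair.1 hxs
          simp [J.vec_ker]
        obtain ⟨Y, c', hc', hY⟩ := J.exists_point hx0 hxδ
        have hYB : Y ∈ BB S j := by rw [mem_BB, hY]; exact smul_mem_holes hx hc'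
        let l : ℙ F (Fin 3 → F) := Configuration.HasLines.mkLine hXZ
        have hl := Configuration.HasLines.mkLine_ax (P := ℙ F (Fin 3 → F)) (L := ℙ F (Fin 3 → F)) hXZ
        have hYl : Y ∈ l := by
          rw [line_span hXZ hl.2 hl.1, ← J.span_iff, hY]
          exact Submodule.smul_mem _ _ hxs
        have hYX := ht l hl.2 hl.1 Y hYB hYl
        rw [hYX] at hY
        rw [Submodule.mem_span_singleton]
        exact ⟨c'⁻¹, by rw [hY, smul_smul, inv_mul_cancel₀ hc', one_smul]⟩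
      · rw [hcδ, LinearMap.smul_apply, J.vec_ker, smul_zero]
  refine ⟨order_eq, ?_, ?_, ?_, ?_, ?_, ?_, ?_⟩
  · -- card
    have h3 := J.card_cone (T := (holes S fun W => W).filter (· ∈ LinearMap.ker δ))
      (fun v hv => (mem_holes.1 (Finset.mem_filter.1 hv).1).1)
      (fun v hv c hc => by
        rw [Finset.mem_filter] at hv ⊢
        exact ⟨smul_mem_holes hv.1 hc, Submodule.smul_mem _ c hv.2⟩)
      (fun v hv => (Finset.mem_filter.1 hv).2)
    have h4 := holes_rich hV hd h2 (LinearMap.ker δ) hK (fun W hW hle => (mem_holes.1 hδ).2 W hW (by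
      rw [Submodule.mem_dualAnnihilator]
      intro w hw
      exact hle hw))
    have h5 : (Finset.univ.filter fun p : ℙ F (Fin 3 → F) => vec j p ∈ (holes S fun W => W).filter (· ∈ LinearMap.ker δ)) = BB S j := by
      ext p
      rw [Finset.mem_filter, Finset.mem_filter, mem_BB]
      simp [J.vec_ker]
    rw [h5] at h3
    rw [h3] at h4
    push_cast at h4
    rw [hcz] at h4
    have h6 : (Fintype.card F : ℤ) ^ 2 + Fintype.card F + 1 - S.card = Fintype.card F + d := by linarith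
    rw [h6, mul_comm] at h4
    have h7 : ((BB S j).card : ℤ) = Fintype.card F + d := mul_left_cancel₀ hq'.ne' h4
    exact_mod_cast h7
  · -- pos
    intro l
    have h3 := duality hV hd h2 (J.finrank_map l)
    have h4 : 0 < ((holes S fun W => W.dualAnnihilator).filter (· ∈ ((Kl l).map j).dualAnnihilator)).card := by
      refine Finset.card_pos.2 ⟨δ, ?_⟩
      rw [Finset.mem_filter, Submodule.mem_dualAnnihilator]
      refine ⟨hδ, fun w hw => ?_⟩
      obtain ⟨x, -, rfl⟩ := Submodule.mem_map.1 hw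
      exact (J.range _).2 ⟨x, rfl⟩
    rw [← h3, hon] at h4
    exact Nat.pos_of_mul_pos_right h4
  · -- le
    intro l
    by_cases h0 : (on (BB S j) l).card = 0
    · omega
    obtain ⟨p, hp⟩ := Finset.card_pos.1 (Nat.pos_of_ne_zero h0)
    rw [on, Finset.mem_filter, mem_BB] at hp
    have h3 := holes_plane hV hd h2 hmax (J.finrank_map l) hp.1 (J.vec_mem_map.2 hp.2)
      (R := (holes S fun W => W).filter (· ∈ (Kl l).map j)) (Finset.filter_subset _ _)
      (fun x hx => (Finset.mem_filter.1 hx).2)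
    rw [hon, hdz] at h3
    push_cast at h3
    rw [hcz, mul_comm] at h3
    have := le_of_mul_le_mul_left h3 hq'
    exact_mod_cast this
  · -- cb0
    intro Z hZ hcard
    obtain ⟨R, w, k, m, hg, hm, hm1, hne, hRδ, hRT⟩ := hT Z hZ
    have h3 := J.card_cone hg.ne hg.cone hRδ
    have h4 : (Finset.univ.filter fun p : ℙ F (Fin 3 → F) => vec j p ∈ R) = T (ℙ F (Fin 3 → F)) (BB S j) Z := by
      ext p; rw [Finset.mem_filter, hRT]; simp
    rw [h4] at h3
    obtain ⟨a, b, hab⟩ := (Good.cb m hg hne).2 (by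
      rw [h3]; exact Nat.mul_le_mul_right _ (by omega))
    obtain ⟨l, hl⟩ := J.exists_line a b
    exact ⟨l, fun X hX => hl X (hab _ ((hRT X).2 hX))⟩
  · -- cb0'
    intro Z hZ
    obtain ⟨R, w, k, m, hg, hm, hm1, hne, hRδ, hRT⟩ := hT Z hZ
    have h3 := J.card_cone hg.ne hg.cone hRδ
    have h4 : (Finset.univ.filter fun p : ℙ F (Fin 3 → F) => vec j p ∈ R) = T (ℙ F (Fin 3 → F)) (BB S j) Z := by
      ext p; rw [Finset.mem_filter, hRT]; simp
    rw [h4] at h3
    have h5 := (Good.cb m hg hne).1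
    rw [h3] at h5
    have := Nat.le_of_mul_le_mul_right h5 hq1
    omega
  · -- cb1
    intro Z hZ l hnel
    obtain ⟨R, w, k, m, hg, hm, hm1, hne, hRδ, hRT⟩ := hT Z hZ
    obtain ⟨L, hL⟩ := J.exists_dual l
    obtain ⟨m', rfl⟩ : ∃ m', m = m' + 1 := ⟨m - 1, by omega⟩
    have hg' := hg.filter L
    have h3 := J.card_cone hg'.ne hg'.cone (fun v hv => hRδ v (Finset.mem_filter.1 hv).1)
    have h4 : (Finset.univ.filter fun p : ℙ F (Fin 3 → F) => vec j p ∈ R.filter fun v => L v ≠ 0) =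
        (T (ℙ F (Fin 3 → F)) (BB S j) Z).filter fun X => X ∉ l := by
      ext p
      rw [Finset.mem_filter, Finset.mem_filter, Finset.mem_filter, hRT, ne_eq, hL]
      simp
    rw [h4] at h3
    have hne' : (R.filter fun v => L v ≠ 0).Nonempty := by
      obtain ⟨X, hX⟩ := hnel
      rw [Finset.mem_filter] at hX
      exact ⟨vec j X, Finset.mem_filter.2 ⟨(hRT X).2 hX.1, fun h => hX.2 ((hL X).1 h)⟩⟩
    have h5 := (Good.cb m' hg' hne').1
    rw [h3] at h5
    have := Nat.le_of_mul_le_mul_right h5 hq1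
    omega
  · -- cb3
    intro Z hZ l hcard
    obtain ⟨R, w, k, m, hg, hm, hm1, hne, hRδ, hRT⟩ := hT Z hZ
    obtain ⟨L, hL⟩ := J.exists_dual l
    obtain ⟨m', rfl⟩ : ∃ m', m = m' + 1 := ⟨m - 1, by omega⟩
    have hg' := hg.filter L
    have h3 := J.card_cone hg'.ne hg'.cone (fun v hv => hRδ v (Finset.mem_filter.1 hv).1)
    have h4 : (Finset.univ.filter fun p : ℙ F (Fin 3 → F) => vec j p ∈ R.filter fun v => L v ≠ 0) =
        (T (ℙ F (Fin 3 → F)) (BB S j) Z).filter fun X => X ∉ l := by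
      ext p
      rw [Finset.mem_filter, Finset.mem_filter, Finset.mem_filter, hRT, ne_eq, hL]
      simp
    rw [h4] at h3
    by_cases hne' : (R.filter fun v => L v ≠ 0).Nonempty
    · obtain ⟨a, b, hab⟩ := (Good.cb m' hg' hne').2 (by
        rw [h3]; exact Nat.mul_le_mul_right _ (by omega))
      obtain ⟨l', hl'⟩ := J.exists_line a b
      refine ⟨l', fun X hX hXl => hl' X (hab _ ?_)⟩
      rw [Finset.mem_filter]
      exact ⟨(hRT X).2 hX, fun h => hXl ((hL X).1 h)⟩
    · refine ⟨l, fun X hX hXl => (hne' ⟨vec j X, ?_⟩).elim⟩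
      rw [Finset.mem_filter]
      exact ⟨(hRT X).2 hX, fun h => hXl ((hL X).1 h)⟩

/-- A maximal partial spread of deficiency `d < q` that is not a spread has a rich plane, which gives a `PlaneData`. -/
theorem exists_planeData (hV : finrank F V = 4) {S : Finset (Submodule F V)} (h2 : ∀ W ∈ S, finrank F W = 2)
    (hd : ∀ W ∈ S, ∀ W' ∈ S, W ≠ W' → W ⊓ W' = ⊥)
    (hmax : ∀ U : Submodule F V, finrank F U = 2 → U ∉ S → ∃ W ∈ S, U ⊓ W ≠ ⊥)
    (hh : ∃ v : V, v ≠ 0 ∧ ∀ W ∈ S, v ∉ W) {d : ℕ} (hdS : d + S.card = Fintype.card F ^ 2 + 1) (hdq : d < Fintype.card F) :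
    ∃ B, PlaneData (ℙ F (Fin 3 → F)) (ℙ F (Fin 3 → F)) (Fintype.card F) d B := by
  obtain ⟨v₁, hv₁0, hv₁⟩ := hh
  have h₁ : v₁ ∈ holes S fun W => W := mem_holes.2 ⟨hv₁0, hv₁⟩
  obtain ⟨u, hu⟩ : ∃ u : V, u ∉ Submodule.span F {v₁} := by
    by_contra hcon
    push Not at hcon
    have h3 : (⊤ : Submodule F V) ≤ Submodule.span F {v₁} := fun x _ => hcon x
    have h4 := Submodule.finrank_mono h3
    rw [finrank_top, hV, finrank_span_singleton hv₁0] at h4
    omega
  have h3 := duality hV hd h2 (finrank_span_pair hv₁0 hu)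
  have h4 : 0 < ((holes S fun W => W).filter (· ∈ Submodule.span F {v₁, u})).card := by
    refine Finset.card_pos.2 ⟨v₁, ?_⟩
    rw [Finset.mem_filter]
    exact ⟨h₁, Submodule.subset_span (by simp)⟩
  rw [h3] at h4
  obtain ⟨δ, hδ⟩ := Finset.card_pos.1 h4
  rw [Finset.mem_filter] at hδ
  have hK : finrank F (LinearMap.ker δ) = 3 := by
    have := Module.Dual.finrank_ker_add_one_of_ne_zero (K := F) (f := δ) (mem_holes.1 hδ.1).1
    omega
  obtain ⟨j, J⟩ := exists_coord hK
  exact ⟨BB S j, planeData hV h2 hd hmax hdS hdq hδ.1 J⟩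

/-- the number of members of a partial spread -/
theorem card_le_spread (hV : finrank F V = 4) {S : Finset (Submodule F V)} (h2 : ∀ W ∈ S, finrank F W = 2)
    (hd : ∀ W ∈ S, ∀ W' ∈ S, W ≠ W' → W ⊓ W' = ⊥) : S.card ≤ Fintype.card F ^ 2 + 1 := by
  have hq : 1 < Fintype.card F := Fintype.one_lt_card
  have h4 := holes_total hV hd h2
  have h5 : (0 : ℤ) ≤ ((Fintype.card F : ℤ) ^ 2 - 1) * ((Fintype.card F : ℤ) ^ 2 + 1 - S.card) := by
    rw [← h4]; positivity
  have hqz : (1 : ℤ) < Fintype.card F := by exact_mod_cast hq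
  have h7 : (0 : ℤ) < (Fintype.card F : ℤ) ^ 2 - 1 := by nlinarith
  have h8 := nonneg_of_mul_nonneg_right h5 h7
  have : (S.card : ℤ) ≤ ((Fintype.card F ^ 2 + 1 : ℕ) : ℤ) := by push_cast; linarith
  exact_mod_cast this

end H8.PS
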