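import Mathlib

/-!
MP_325208 (helper8): the planar data of a rich plane of a maximal partial spread, as an abstract structure.
`q` is the order, `d` the deficiency, `B` the holes in the plane, `T B Z` the holes on tangents through `Z`.
-/

set_option autoImplicit false

open Finset
open scoped Classical

namespace H8.PS

variable (P L : Type*) [Fintype P] [Fintype L] [Membership P L] [Configuration.ProjectivePlane P L]

variable {P} in
/-- the points of `B` on the line `l` -/
noncomputable def on {L : Type*} [Membership P L] (B : Finset P) (l : L) : Finset P := B.filter fun X => X ∈ l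

variable {P} in
/-- the points `X` of `B` such that a line through `Z` and `X` has no other point of `B` -/
noncomputable def T (L : Type*) [Membership P L] (B : Finset P) (Z : P) : Finset P :=
  B.filter fun X => ∀ l : L, Z ∈ l → X ∈ l → ∀ Y ∈ B, Y ∈ l → Y = X

variable {P L} in
omit [Fintype P] [Fintype L] [Configuration.ProjectivePlane P L] in
theorem mem_on {B : Finset P} {l : L} {X : P} : X ∈ on B l ↔ X ∈ B ∧ X ∈ l := by
  simp [on]

variable {P L} in
omit [Fintype P] [Fintype L] [Configuration.ProjectivePlane P L] in
theorem mem_T {B : Finset P} {Z X : P} :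
    X ∈ T L B Z ↔ X ∈ B ∧ ∀ l : L, Z ∈ l → X ∈ l → ∀ Y ∈ B, Y ∈ l → Y = X := by
  simp only [T, Finset.mem_filter]

/-- What is used of a line-free plane of a maximal partial spread of deficiency `d`. -/
structure PlaneData (q d : ℕ) (B : Finset P) : Prop where
  order : Configuration.ProjectivePlane.order P L = q
  card : B.card = q + d
  /-- every line has a hole -/
  pos : ∀ l : L, 1 ≤ (on B l).card
  /-- every line has at most `d` holes -/
  le : ∀ l : L, (on B l).card ≤ d
  /-- few tangent holes are collinear -/
  cb0 : ∀ Z ∉ B, (T L B Z).card ≤ 2 * (q - d) + 1 → ∃ l : L, ∀ X ∈ T L B Z, X ∈ l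
  /-- there are at least `q - d + 2` tangent holes -/
  cb0' : ∀ Z ∉ B, q - d + 2 ≤ (T L B Z).card
  /-- the tangent holes off a line are none or many -/
  cb1 : ∀ Z ∉ B, ∀ l : L, ((T L B Z).filter fun X => X ∉ l).Nonempty →
    q - d + 1 ≤ ((T L B Z).filter fun X => X ∉ l).card
  /-- few tangent holes off a line are collinear -/
  cb3 : ∀ Z ∉ B, ∀ l : L, ((T L B Z).filter fun X => X ∉ l).card + 1 ≤ 2 * (q - d) →
    ∃ l' : L, ∀ X ∈ T L B Z, X ∉ l → X ∈ l'

end H8.PS
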