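import Mathlib

/-!
MP_325208 (helper8; proof of helper84): a functional equation over a finite field whose solutions are affine.
-/

set_option autoImplicit false

namespace H8.PS.Aff

variable {F : Type*} [Field F] [Finite F]

/-- the normalised hypotheses -/
structure Eq0 (φ : F → F) : Prop where
  zero : φ 0 = 0
  inj : Function.Injective φ
  inj' : Function.Injective fun x => x - φ x
  eq : ∀ x a, (φ x - φ a) ^ 2 = (x - a) * (φ (a + φ x - φ a) - φ a)

omit [Finite F] in
theorem Eq0.one {φ : F → F} (h : Eq0 φ) (x : F) : x * φ (φ x) = φ x ^ 2 := by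
  have := h.eq x 0
  rw [h.zero, sub_zero, sub_zero, sub_zero, zero_add, sub_zero] at this
  exact this.symm

omit [Finite F] in
theorem Eq0.ne {φ : F → F} (h : Eq0 φ) {x : F} (hx : x ≠ 0) : φ x ≠ 0 := by
  intro h0
  exact hx (h.inj (by rw [h0, h.zero]))

omit [Finite F] in
theorem Eq0.comb {φ : F → F} (h : Eq0 φ) {D u v : F} (hu : φ u = D * u) (hv : φ v = D * v) :
    φ ((1 - D) * u + D * v) = D * ((1 - D) * u + D * v) := by
  by_cases huv : v = u
  · subst huv
    have : (1 - D) * v + D * v = v := by ring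
    rw [this, hv]
  · have h1 := h.eq v u
    rw [hu, hv] at h1
    have h2 : v - u ≠ 0 := sub_ne_zero.2 huv
    have h3 : u + D * v - D * u = (1 - D) * u + D * v := by ring
    rw [h3] at h1
    have h4 : (v - u) * (φ ((1 - D) * u + D * v) - D * u - D ^ 2 * (v - u)) = 0 := by
      have : (v - u) * (φ ((1 - D) * u + D * v) - D * u - D ^ 2 * (v - u)) =
          (v - u) * (φ ((1 - D) * u + D * v) - D * u) - (D * v - D * u) ^ 2 := by ring
      rw [this, h1, sub_self]
    rcases mul_eq_zero.1 h4 with h5 | h5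
    · exact absurd h5 h2
    · have : φ ((1 - D) * u + D * v) = D * u + D ^ 2 * (v - u) := by
        rw [sub_sub] at h5
        exact sub_eq_zero.1 h5
      rw [this]; ring

theorem Eq0.add {φ : F → F} (h : Eq0 φ) {D : F} (h0 : D ≠ 0) (h1 : D ≠ 1) {u v : F} (hu : φ u = D * u) (hv : φ v = D * v) :
    φ (u + v) = D * (u + v) := by
  set W : Set F := {w | φ w = D * w} with hW
  have hz : (0 : F) ∈ W := by
    show φ 0 = D * 0
    rw [h.zero, mul_zero]
  have surj : ∀ c : F, c ≠ 0 → (∀ w ∈ W, c * w ∈ W) → ∀ w ∈ W, ∃ w' ∈ W, c * w' = w := by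
    intro c hc hcW
    have hinj : Set.InjOn (fun w => c * w) W := fun x _ y _ hxy => mul_left_cancel₀ hc hxy
    have hs : (fun w => c * w) '' W = W := by
      refine Set.eq_of_subset_of_ncard_le ?_ ?_ (Set.toFinite W)
      · rintro _ ⟨w, hw, rfl⟩
        exact hcW w hw
      · rw [hinj.ncard_image]
    intro w hw
    rw [← hs] at hw
    obtain ⟨w', hw', he⟩ := hw
    exact ⟨w', hw', he⟩
  obtain ⟨v', hv', hev⟩ := surj D h0 (fun w hw => by
    have := h.comb (D := D) (u := 0) (v := w) hz hw
    rw [mul_zero, zero_add] at this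
    exact this) v hv
  obtain ⟨u', hu', heu⟩ := surj (1 - D) (sub_ne_zero.2 (Ne.symm h1)) (fun w hw => by
    have := h.comb (D := D) (u := w) (v := 0) hw hz
    rw [mul_zero, add_zero] at this
    exact this) u hu
  have := h.comb (D := D) hu' hv'
  rw [heu, hev] at this
  exact this

theorem Eq0.neg {φ : F → F} (h : Eq0 φ) (u : F) : φ (-u) = -φ u := by
  by_cases hu : u = 0
  · subst hu
    rw [neg_zero, h.zero, neg_zero]
  set D := φ u / u with hD
  have hφ : φ u = D * u := by rw [hD]; field_simp
  have h0 : D ≠ 0 := by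
    intro h0
    rw [h0, zero_mul] at hφ
    exact h.ne hu hφ
  have h1 : D ≠ 1 := by
    intro h1
    rw [h1, one_mul] at hφ
    apply hu
    apply h.inj'
    show u - φ u = 0 - φ 0
    rw [hφ, h.zero, sub_self, sub_zero]
  have hn : ∀ n : ℕ, φ ((n : F) * u) = D * ((n : F) * u) := by
    intro n
    induction n with
    | zero => rw [Nat.cast_zero, zero_mul, h.zero, mul_zero]
    | succ n ih =>
      have := h.add h0 h1 ih hφ
      have e : ((n + 1 : ℕ) : F) * u = (n : F) * u + u := by push_cast; ring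
      rw [e]
      exact this
  cases nonempty_fintype F
  obtain ⟨k, hk⟩ : ∃ k, Fintype.card F = k + 1 := ⟨Fintype.card F - 1, by have := Fintype.card_pos (α := F); omega⟩
  have h2 : ((k + 1 : ℕ) : F) = 0 := by
    rw [← hk]
    exact FiniteField.cast_card_eq_zero F
  have h3 : (k : F) = -1 := by
    push_cast at h2
    exact eq_neg_of_add_eq_zero_left h2
  have h4 := hn k
  rw [h3] at h4
  have e1 : (-1 : F) * u = -u := by ring
  rw [e1] at h4
  rw [h4, hφ]
  ring

omit [Finite F] in
/-- an additive solution is linear -/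
theorem Eq0.linear {φ : F → F} (h : Eq0 φ) (hadd : ∀ x y, φ (x + y) = φ x + φ y) (x : F) : φ x = φ 1 * x := by
  have h1 := h.one x
  have h2 := h.one 1
  have h3 := h.one (x + 1)
  rw [hadd, hadd] at h3
  have h4 : (x * φ 1 - φ x) ^ 2 = 0 := by
    linear_combination x * h3 - x * h1 - x * h2 - x ^ 2 * h2 - h1
  have h5 : x * φ 1 - φ x = 0 := pow_eq_zero_iff (two_ne_zero) |>.1 h4
  rw [mul_comm]
  exact (sub_eq_zero.1 h5).symm

/-- translation -/
theorem Eq0.shift {φ : F → F} (h1 : Function.Injective φ) (h2 : Function.Injective fun x => x - φ x)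
    (h : ∀ x a, (φ x - φ a) ^ 2 = (x - a) * (φ (a + φ x - φ a) - φ a)) (b : F) : Eq0 fun u => φ (b + u) - φ b := by
  refine ⟨by simp, fun x y hxy => ?_, fun x y hxy => ?_, fun x a => ?_⟩
  · have : φ (b + x) = φ (b + y) := sub_left_injective hxy
    exact add_left_cancel (h1 this)
  · have h3 : x - (φ (b + x) - φ b) = y - (φ (b + y) - φ b) := hxy
    have : (b + x) - φ (b + x) = (b + y) - φ (b + y) := by linear_combination h3
    exact add_left_cancel (h2 this)
  · show (φ (b + x) - φ b - (φ (b + a) - φ b)) ^ 2 =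
      (x - a) * (φ (b + (a + (φ (b + x) - φ b) - (φ (b + a) - φ b))) - φ b - (φ (b + a) - φ b))
    have h3 := h (b + x) (b + a)
    have e : b + (a + (φ (b + x) - φ b) - (φ (b + a) - φ b)) = b + a + φ (b + x) - φ (b + a) := by ring
    rw [e]
    linear_combination h3

/-- odd characteristic -/
theorem Eq0.add_odd {φ : F → F} (h : Eq0 φ) (h20 : (2 : F) ≠ 0) (x y : F) : φ (x + y) = φ x + φ y := by
  have key : ∀ b u : F, φ (b + u) + φ (b - u) = 2 * φ b := by
    intro b u
    have h1 := (Eq0.shift h.inj h.inj' h.eq b).neg u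
    have h2 : φ (b + -u) - φ b = -(φ (b + u) - φ b) := h1
    rw [sub_eq_add_neg]
    linear_combination h2
  have h1 := key ((x + y) / 2) ((x - y) / 2)
  have h2 := key ((x + y) / 2) ((x + y) / 2)
  have e1 : (x + y) / 2 + (x - y) / 2 = x := by field_simp; ring
  have e2 : (x + y) / 2 - (x - y) / 2 = y := by field_simp; ring
  have e3 : (x + y) / 2 + (x + y) / 2 = x + y := by field_simp; ring
  rw [e1, e2] at h1
  rw [e3, sub_self, h.zero, add_zero] at h2
  rw [h2, h1]

/-- characteristic two -/
theorem Eq0.add_even {φ : F → F} (h : Eq0 φ) (h20 : (2 : F) = 0) (x y : F) : φ (x + y) = φ x + φ y := by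
  have hbij : Function.Bijective φ := Finite.injective_iff_bijective.1 h.inj
  have hbij' : Function.Bijective fun x => x - φ x := Finite.injective_iff_bijective.1 h.inj'
  obtain ⟨ρ, hρ1, hρ2⟩ := Function.bijective_iff_has_inverse.1 hbij
  have hρ0 : ρ 0 = 0 := by
    have := hρ1 0
    rwa [h.zero] at this
  have hprod : ∀ z, ρ z * φ z = z ^ 2 := by
    intro z
    have := h.one (ρ z)
    rwa [hρ2 z] at this
  have hmain : ∀ c z, ρ (z + c) = ρ z + ρ c := by
    intro c z
    by_cases hc : c = 0
    · rw [hc, add_zero, hρ0, add_zero]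
    obtain ⟨a, ha⟩ := hbij'.2 c
    have ha' : a - φ a = c := ha
    have ha0 : a ≠ 0 := by
      rintro rfl
      rw [h.zero, sub_zero] at ha'
      exact hc ha'.symm
    have hb0 := h.ne ha0
    set b := φ a with hb
    have one : ∀ z, (z - b) ^ 2 * ρ (z + c) = (ρ z - a) * ((z + c) ^ 2 - b * ρ (z + c)) := by
      intro z
      have h1 := h.eq (ρ z) a
      rw [hρ2 z, ← hb] at h1
      have e : a + z - b = z + c := by rw [← ha']; ring
      rw [e] at h1
      rw [h1]
      have h2 := hprod (z + c)
      linear_combination (ρ z - a) * h2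
    have hall : ∀ z, b * (ρ (z + c) + ρ z) = a * c := by
      intro z
      have h3 := one z
      have h4 := one (z + c)
      have e : z + c + c = z := by
        have : c + c = 2 * c := by ring
        rw [add_assoc, this, h20, zero_mul, add_zero]
      rw [e] at h4
      apply mul_left_cancel₀ hc
      have hac : a = b + c := by rw [← ha']; ring
      linear_combination -h3 - h4 - (ρ (z + c) + ρ z) * b * hac +
        (-z * b * ρ (z + c) - b * (z + c) * ρ z + b * ρ z * ρ (z + c) + a * (z ^ 2 + c * z)) * h20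
    have h5 := hall z
    have h6 := hall 0
    rw [zero_add, hρ0, add_zero] at h6
    have h7 : ρ (z + c) + ρ z = ρ c := mul_left_cancel₀ hb0 (h5.trans h6.symm)
    have h8 : ρ z + ρ z = 0 := by
      have : ρ z + ρ z = 2 * ρ z := by ring
      rw [this, h20, zero_mul]
    linear_combination h7 - h8
  have h1 := hmain (φ y) (φ x)
  rw [hρ1, hρ1] at h1
  have h2 := hρ2 (φ x + φ y)
  rw [h1] at h2
  exact h2

/-- **The functional equation.** -/
theorem affine_of_eq (φ : F → F) (h1 : Function.Injective φ) (h2 : Function.Injective fun x => x - φ x)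
    (h : ∀ x a, (φ x - φ a) ^ 2 = (x - a) * (φ (a + φ x - φ a) - φ a)) : ∃ D, ∀ x, φ x = φ 0 + D * x := by
  have h0 := Eq0.shift h1 h2 h 0
  have hadd : ∀ x y, (fun u => φ (0 + u) - φ 0) (x + y) = (fun u => φ (0 + u) - φ 0) x + (fun u => φ (0 + u) - φ 0) y := by
    by_cases h20 : (2 : F) = 0
    · exact h0.add_even h20
    · exact h0.add_odd h20
  refine ⟨φ (0 + 1) - φ 0, fun x => ?_⟩
  have h3 := h0.linear hadd x
  have h4 : φ (0 + x) - φ 0 = (φ (0 + 1) - φ 0) * x := h3
  rw [zero_add x] at h4
  linear_combination h4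

end H8.PS.Aff

/-- **The functional equation**, with the name used in the plan. -/
theorem H8.PS.affine_of_eq {F : Type*} [Field F] [Finite F] (φ : F → F) (h1 : Function.Injective φ)
    (h2 : Function.Injective fun x => x - φ x)
    (h : ∀ x a, (φ x - φ a) ^ 2 = (x - a) * (φ (a + φ x - φ a) - φ a)) : ∃ D, ∀ x, φ x = φ 0 + D * x :=
  H8.PS.Aff.affine_of_eq φ h1 h2 h
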