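import Pool.Agent.H8.PS.Final
import Pool.Agent.H8.PS.PlaneData

/-!
MP_325208 (helper8): every rich plane of a maximal partial spread gives a `PlaneData`.
-/

set_option autoImplicit false

open Module Finset
open scoped Classical LinearAlgebra.Projectivization

namespace H8.PS

variable {F : Type*} [Field F] [Fintype F]
variable {V : Type*} [AddCommGroup V] [Module F V] [Fintype V] [FiniteDimensional F V]

/-- the number of holes in a hyperplane containing no member -/
theorem holes_rich (hV : finrank F V = 4) {ι : Type*} {s : Finset ι} {A : ι → Submodule F V}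
    (hA : ∀ i ∈ s, ∀ j ∈ s, i ≠ j → A i ⊓ A j = ⊥) (h2 : ∀ i ∈ s, finrank F (A i) = 2) (N : Submodule F V)
    (hN : finrank F N = 3) (hr : ∀ i ∈ s, ¬ A i ≤ N) :
    (((holes s A).filter (· ∈ N)).card : ℤ) =
      ((Fintype.card F : ℤ) - 1) * ((Fintype.card F : ℤ) ^ 2 + Fintype.card F + 1 - s.card) := by
  rw [card_holes_inter s A hA N, hN]
  have h1 : ∀ i ∈ s, finrank F (A i ⊓ N : Submodule F V) = 1 := by
    intro i hi
    refine le_antisymm ?_ (one_le_inf hV (h2 i hi) hN)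
    have h3 : A i ⊓ N < A i := by
      refine lt_of_le_of_ne inf_le_left fun h => hr i hi ?_
      rw [← h]; exact inf_le_right
    have := Submodule.finrank_lt_finrank_of_lt h3
    have := h2 i hi
    omega
  rw [Finset.sum_congr rfl fun i hi => by rw [h1 i hi], Finset.sum_const, nsmul_eq_mul]
  ring

namespace Conf

variable {S : Finset (Submodule F V)} {Z E : V} (C : Conf (F := F) S Z E)
include C

theorem rK {δ : Dual F V} (hδ : δ ∈ DD S Z E) : finrank F (LinearMap.ker δ) = 3 := by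
  have h0 : δ ≠ 0 := (mem_holes.1 (mem_DD.1 hδ).1).1
  have := Module.Dual.finrank_ker_add_one_of_ne_zero (K := F) (f := δ) h0
  have := C.hV
  omega

theorem coords {δ : Dual F V} (hδ : δ ∈ DD S Z E) : ∃ α β : Dual F V, α Z = 0 ∧ β Z = 0 ∧
    (∀ x, δ x = 0 → β x = 0 → α x = 0 → x ∈ Submodule.span F {Z}) ∧
    (∀ y z : F, ∃ u, δ u = 0 ∧ α u = y ∧ β u = z) := by
  have hK := C.rK hδ
  have hZK : Z ∈ LinearMap.ker δ := (mem_DD.1 hδ).2.1
  obtain ⟨e₀, he₀, he₀Z⟩ : ∃ e₀ ∈ LinearMap.ker δ, e₀ ∉ Submodule.span F {Z} := by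
    by_contra hcon
    push Not at hcon
    have h3 : LinearMap.ker δ ≤ Submodule.span F {Z} := hcon
    have h4 := Submodule.finrank_mono h3
    rw [hK, finrank_span_singleton C.hZ0] at h4
    omega
  have hN := finrank_span_pair C.hZ0 he₀Z
  have hNK : Submodule.span F {Z, e₀} ≤ LinearMap.ker δ := by
    rw [Submodule.span_le]
    rintro x (rfl | hx)
    · exact hZK
    · rw [Set.mem_singleton_iff] at hx; subst hx; exact he₀
  obtain ⟨β, e, he, hβN, hβe, hβ⟩ := exists_cut hNK (by rw [hN, hK])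
  obtain ⟨α, a, ha, hαZ, hαa, hα⟩ := exists_cut (P := Submodule.span F {Z}) (Q := Submodule.span F {Z, e₀})
    (Submodule.span_mono (by simp)) (by rw [hN, finrank_span_singleton C.hZ0])
  have hZN : Z ∈ Submodule.span F {Z, e₀} := Submodule.subset_span (by simp)
  refine ⟨α, β, hαZ (Submodule.mem_span_singleton_self Z), hβN hZN, fun x hx hβx hαx => hα x (hβ x hx hβx) hαx, ?_⟩
  intro y z
  have h1 : β a = 0 := hβN ha
  have h2 : δ a = 0 := hNK ha
  have h3 : δ e = 0 := he
  refine ⟨z • e + (y - z * α e) • a, ?_, ?_, ?_⟩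
  · simp [h2, h3]
  · simp [hαa]
  · simp [hβe, h1]

/-- a hole on a line through `Z` can be moved into a given class modulo `Z` -/
theorem rescale {u x : V} (hx : x ∈ holes S fun W => W) (hxu : x ∈ Submodule.span F {Z, u}) :
    ∃ c p : F, c ≠ 0 ∧ c⁻¹ • x = p • Z + u := by
  obtain ⟨p, c, rfl⟩ := Submodule.mem_span_pair.1 hxu
  have hc : c ≠ 0 := by
    rintro rfl
    apply C.not_span hx
    rw [zero_smul, add_zero]
    exact Submodule.smul_mem _ _ (Submodule.mem_span_singleton_self _)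
  exact ⟨c, c⁻¹ * p, hc, by rw [smul_add, smul_smul, smul_smul, inv_mul_cancel₀ hc, one_smul]⟩

theorem RR_nonempty {δ : Dual F V} (hδ : δ ∈ DD S Z E)
    (hd : (Fintype.card F : ℤ) ^ 2 + 1 - S.card < Fintype.card F + 2) : (RR S Z E δ).Nonempty := by
  by_contra hemp
  rw [Finset.not_nonempty_iff_eq_empty] at hemp
  obtain ⟨α, β, hαZ, hβZ, hαβ, hsurj⟩ := C.coords hδ
  have hq : 1 < Fintype.card F := Fintype.one_lt_card
  have hδZ : δ Z = 0 := (mem_DD.1 hδ).2.1
  have hup := holes_hyperplane C.hV C.hd C.h2 (LinearMap.ker δ) (C.rK hδ)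
  set B := (holes S fun W => W).filter (· ∈ LinearMap.ker δ) with hB
  have hmaps : ∀ v ∈ B, ((α v, β v) : F × F) ∈ (Finset.univ.erase (0, 0) : Finset (F × F)) := by
    intro v hv
    rw [Finset.mem_erase]
    refine ⟨fun h => ?_, Finset.mem_univ _⟩
    rw [hB, Finset.mem_filter] at hv
    simp only [Prod.mk.injEq] at h
    exact C.not_span hv.1 (hαβ v hv.2 h.2 h.1)
  have hcard := Finset.card_eq_sum_card_fiberwise (f := fun v => ((α v, β v) : F × F)) hmaps
  have hfib : ∀ b ∈ (Finset.univ.erase (0, 0) : Finset (F × F)), 2 ≤ (B.filter fun v => ((α v, β v) : F × F) = b).card := by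
    rintro ⟨y, z⟩ hb
    obtain ⟨u, hu, hαu, hβu⟩ := hsurj y z
    have huZ : u ∉ Submodule.span F {Z} := by
      intro h
      obtain ⟨c, rfl⟩ := Submodule.mem_span_singleton.1 h
      rw [Finset.mem_erase] at hb
      apply hb.1
      rw [← hαu, ← hβu]
      simp [hαZ, hβZ]
    have hr := finrank_span_pair C.hZ0 huZ
    have hdu := duality C.hV C.hd C.h2 hr
    have hpos : 0 < ((holes S fun W => W).filter (· ∈ Submodule.span F {Z, u})).card := by
      rw [hdu]
      refine Finset.card_pos.2 ⟨δ, ?_⟩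
      rw [Finset.mem_filter, mem_ann_pair]
      exact ⟨(mem_DD.1 hδ).1, hδZ, hu⟩
    obtain ⟨x, hx⟩ := Finset.card_pos.1 hpos
    rw [Finset.mem_filter] at hx
    obtain ⟨c, p, hc, hcx⟩ := C.rescale hx.1 hx.2
    have hv0 : c⁻¹ • x ∈ holes S fun W => W := smul_mem_holes hx.1 (inv_ne_zero hc)
    have h0 : δ (c⁻¹ • x) = 0 ∧ α (c⁻¹ • x) = y ∧ β (c⁻¹ • x) = z := by
      rw [hcx]; simp [hδZ, hu, hαZ, hβZ, hαu, hβu]
    have hnot : c⁻¹ • x ∉ RR S Z E δ := by rw [hemp]; simp
    have hex : ∃ θ ∈ DD S Z E, θ ≠ δ ∧ θ (c⁻¹ • x) = 0 := by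
      by_contra hcon
      push Not at hcon
      exact hnot (mem_RR.2 ⟨hv0, hcon⟩)
    obtain ⟨θ, hθ, hθδ, hθ0⟩ := hex
    have hnt : ∃ x' ∈ holes S fun W => W, x' ∈ Submodule.span F {Z, c⁻¹ • x} ∧ x' ∉ Submodule.span F {c⁻¹ • x} := by
      by_contra hcon
      push Not at hcon
      exact hθδ (C.unique_of_tangent hv0 hcon hδ hθ h0.1 hθ0)
    obtain ⟨x', hx', hx's, hx'n⟩ := hnt
    obtain ⟨c', p', hc', hcx'⟩ := C.rescale hx' hx's
    have h1 : δ (c'⁻¹ • x') = 0 ∧ α (c'⁻¹ • x') = y ∧ β (c'⁻¹ • x') = z := by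
      rw [hcx', map_add, map_add, map_add, h0.1, h0.2.1, h0.2.2]; simp [hδZ, hαZ, hβZ]
    have hne : c⁻¹ • x ≠ c'⁻¹ • x' := by
      intro heq
      apply hx'n
      rw [Submodule.mem_span_singleton]
      exact ⟨c', by rw [heq, smul_smul, mul_inv_cancel₀ hc', one_smul]⟩
    have hsub : ({c⁻¹ • x, c'⁻¹ • x'} : Finset V) ⊆ B.filter fun v => ((α v, β v) : F × F) = (y, z) := by
      intro w hw
      rw [Finset.mem_insert, Finset.mem_singleton] at hw
      rw [Finset.mem_filter, hB, Finset.mem_filter]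
      rcases hw with rfl | rfl
      · exact ⟨⟨hv0, h0.1⟩, by rw [h0.2.1, h0.2.2]⟩
      · exact ⟨⟨smul_mem_holes hx' (inv_ne_zero hc'), h1.1⟩, by rw [h1.2.1, h1.2.2]⟩
    have := Finset.card_le_card hsub
    rwa [Finset.card_pair hne] at this
  have h2 : 2 * (Fintype.card F ^ 2 - 1) ≤ B.card := by
    rw [hcard]
    have := Finset.card_nsmul_le_sum _ _ 2 hfib
    rw [Finset.card_erase_of_mem (Finset.mem_univ _), Finset.card_univ, Fintype.card_prod, smul_eq_mul] at this
    have h3 : Fintype.card F ^ 2 = Fintype.card F * Fintype.card F := sq _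
    rw [h3]; omega
  have h3 : 2 * ((Fintype.card F : ℤ) ^ 2 - 1) ≤ B.card := by
    have h4 : 1 ≤ Fintype.card F ^ 2 := Nat.one_le_pow _ _ (by omega)
    have : ((2 * (Fintype.card F ^ 2 - 1) : ℕ) : ℤ) = 2 * ((Fintype.card F : ℤ) ^ 2 - 1) := by push_cast [h4]; ring
    rw [← this]; exact_mod_cast h2
  have h5 := h3.trans hup
  have hq' : (0 : ℤ) < (Fintype.card F : ℤ) - 1 := by
    have : (1 : ℤ) < Fintype.card F := by exact_mod_cast hq
    linarith
  nlinarith [mul_pos hq' (sub_pos.2 hd)]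

theorem RR_ker {δ : Dual F V} {v : V} (hv : v ∈ RR S Z E δ) : δ v = 0 := by
  rw [mem_RR] at hv
  obtain ⟨θ, hθ, h⟩ := C.exists_D hv.1
  by_contra hne
  refine hv.2 θ hθ ?_ h
  rintro rfl
  exact hne h

/-- the cone of tangent holes satisfies the Cayley–Bacharach condition -/
theorem good {δ : Dual F V} (hδ : δ ∈ DD S Z E) {m : ℕ} (hm : ((DD S Z E).erase δ).card + m = Fintype.card F - 1) :
    Good (RR S Z E δ) (fun v => ∏ θ ∈ (DD S Z E).erase δ, θ v) ((DD S Z E).erase δ).card m := by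
  refine ⟨hm, fun v hv => (mem_holes.1 (mem_RR.1 hv).1).1, ?_, ?_, ?_, ?_⟩
  · intro v hv c hc
    rw [mem_RR] at hv ⊢
    refine ⟨smul_mem_holes hv.1 hc, fun θ hθ hθδ => ?_⟩
    rw [map_smul]
    exact smul_ne_zero hc (hv.2 θ hθ hθδ)
  · intro v hv
    rw [mem_RR] at hv
    refine Finset.prod_ne_zero_iff.2 fun θ hθ => ?_
    rw [Finset.mem_erase] at hθ
    exact hv.2 θ hθ.2 hθ.1
  · intro v c _
    simp only [map_smul, smul_eq_mul]
    rw [Finset.prod_mul_distrib, Finset.prod_const]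
  · intro L
    have h3 := sum_holes S (fun W => W) C.hd C.h2 (by rw [C.hV]; omega)
      (Finset.univ : Finset ({θ // θ ∈ (DD S Z E).erase δ} ⊕ Fin m))
      (Sum.elim (fun θ => θ.1) L) (by
        rw [Finset.card_univ, Fintype.card_sum, Fintype.card_coe, Fintype.card_fin]
        exact hm)
    rw [RR, Finset.sum_filter]
    refine Eq.trans (Finset.sum_congr rfl fun v _ => ?_) h3
    rw [Fintype.prod_sum_type]
    simp only [Sum.elim_inl, Sum.elim_inr]
    rw [Finset.prod_coe_sort ((DD S Z E).erase δ) fun θ => θ v]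
    by_cases hall : ∀ θ ∈ (DD S Z E).erase δ, θ v ≠ 0
    · rw [if_pos hall]
    · rw [if_neg hall]
      push Not at hall
      obtain ⟨θ, hθ, hθ0⟩ := hall
      rw [Finset.prod_eq_zero hθ hθ0, zero_mul]

end Conf

end H8.PS
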