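import Pool.Agent.H8.PS.Key

/-!
MP_325208 (helper8): the Cayley–Bacharach argument. `R` is a finite cone (closed under nonzero scalars) without `0`, `w` is a
weight homogeneous of degree `k`, and all products of `w` with `m = q - 1 - k` linear functionals sum to zero over `R`. Then
`R` has at least `(m + 2) (q - 1)` elements, and if it has at most `(2 m + 1) (q - 1)` elements it lies in a plane.
-/

set_option autoImplicit false

open Module Finset
open scoped Classical

namespace H8.PS

variable {F : Type*} [Field F] [Fintype F] {V : Type*} [AddCommGroup V] [Module F V] [Fintype V]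

variable (F) in
/-- the nonzero multiples of a vector -/
noncomputable def ray (v : V) : Finset V := (Finset.univ.filter fun c : F => c ≠ 0).image fun c => c • v

theorem mem_ray {v u : V} : u ∈ ray F v ↔ ∃ c : F, c ≠ 0 ∧ c • v = u := by
  simp [ray]

theorem ray_inj {v : V} (hv : v ≠ 0) : Function.Injective fun c : F => c • v := smul_left_injective F hv

theorem card_ne_zero_filter : (Finset.univ.filter fun c : F => c ≠ 0).card = Fintype.card F - 1 := by
  rw [Finset.filter_ne' Finset.univ (0 : F), Finset.card_erase_of_mem (Finset.mem_univ _), Finset.card_univ]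

theorem card_ray {v : V} (hv : v ≠ 0) : (ray F v).card = Fintype.card F - 1 := by
  rw [ray, Finset.card_image_of_injective _ (ray_inj hv), card_ne_zero_filter]

theorem ray_subset {R : Finset V} (hc : ∀ v ∈ R, ∀ c : F, c ≠ 0 → c • v ∈ R) {v : V} (hv : v ∈ R) : ray F v ⊆ R := by
  intro u hu
  obtain ⟨c, hc0, rfl⟩ := mem_ray.1 hu
  exact hc v hv c hc0

/-- The assumptions on a weighted cone. -/
structure Good (R : Finset V) (w : V → F) (k m : ℕ) : Prop where
  deg : k + m = Fintype.card F - 1
  ne : ∀ v ∈ R, v ≠ 0
  cone : ∀ v ∈ R, ∀ c : F, c ≠ 0 → c • v ∈ R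
  wne : ∀ v ∈ R, w v ≠ 0
  whom : ∀ (v : V) (c : F), c ≠ 0 → w (c • v) = c ^ k * w v
  id : ∀ L : Fin m → Dual F V, ∑ v ∈ R, w v * ∏ i, L i v = 0

theorem Good.exists_not_mem {R : Finset V} {w : V → F} {k m : ℕ} (h : Good R w k m) {v : V} (hv : v ∈ R) :
    ∃ u ∈ R, u ∉ Submodule.span F {v} := by
  by_contra hcon
  push Not at hcon
  have hR : R = ray F v := by
    ext u
    constructor
    · intro hu
      obtain ⟨c, rfl⟩ := Submodule.mem_span_singleton.1 (hcon u hu)
      refine mem_ray.2 ⟨c, ?_, rfl⟩
      rintro rfl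
      exact h.ne _ hu (zero_smul _ _)
    · intro hu
      exact ray_subset h.cone hv hu
  have hv0 : v ∉ (⊥ : Submodule F V) := by simpa using h.ne v hv
  obtain ⟨f, hf, -⟩ := Submodule.exists_le_ker_of_notMem hv0
  have h1 := h.id fun _ => (f v)⁻¹ • f
  rw [hR, ray, Finset.sum_image fun a _ b _ hab => ray_inj (h.ne v hv) hab] at h1
  have h2 : ∀ c ∈ (Finset.univ.filter fun c : F => c ≠ 0),
      w (c • v) * ∏ _i : Fin m, ((f v)⁻¹ • f) (c • v) = w v := by
    intro c hc
    have hc0 : c ≠ 0 := by simpa using hc
    rw [h.whom v c hc0]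
    have : ((f v)⁻¹ • f) (c • v) = c := by
      rw [LinearMap.smul_apply, map_smul, smul_eq_mul, smul_eq_mul]
      field_simp
    rw [this, Finset.prod_const, Finset.card_univ, Fintype.card_fin]
    have : c ^ (k + m) = 1 := by rw [h.deg]; exact FiniteField.pow_card_sub_one_eq_one c hc0
    calc c ^ k * w v * c ^ m = c ^ (k + m) * w v := by ring
      _ = w v := by rw [this, one_mul]
  rw [Finset.sum_congr rfl h2, Finset.sum_const, card_ne_zero_filter, nsmul_eq_mul,
    Nat.cast_sub Fintype.card_pos, FiniteField.cast_card_eq_zero] at h1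
  have : w v = 0 := by simpa using h1
  exact h.wne v hv this

theorem Good.filter {R : Finset V} {w : V → F} {k m : ℕ} (h : Good R w k (m + 1)) (L : Dual F V) :
    Good (R.filter fun v => L v ≠ 0) (fun v => w v * L v) (k + 1) m := by
  refine ⟨by have := h.deg; omega, fun v hv => h.ne v (Finset.mem_filter.1 hv).1, ?_, ?_, ?_, ?_⟩
  · intro v hv c hc
    rw [Finset.mem_filter] at hv ⊢
    refine ⟨h.cone v hv.1 c hc, ?_⟩
    rw [map_smul]; exact mul_ne_zero hc hv.2
  · intro v hv
    rw [Finset.mem_filter] at hv
    exact mul_ne_zero (h.wne v hv.1) hv.2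
  · intro v c hc
    simp only [h.whom v c hc, map_smul, smul_eq_mul]
    ring
  · intro L'
    have h1 := h.id (Fin.cons L L')
    rw [Finset.sum_filter]
    refine Eq.trans (Finset.sum_congr rfl fun v _ => ?_) h1
    rw [Fin.prod_univ_succ]
    simp only [Fin.cons_zero, Fin.cons_succ]
    by_cases hL : L v = 0
    · simp [hL]
    · rw [if_pos hL]; ring

theorem Good.cb : ∀ (m : ℕ) {R : Finset V} {w : V → F} {k : ℕ}, Good R w k m → R.Nonempty →
    (m + 2) * (Fintype.card F - 1) ≤ R.card ∧
    (R.card ≤ (2 * m + 1) * (Fintype.card F - 1) → ∃ a b : V, ∀ v ∈ R, v ∈ Submodule.span F {a, b}) := by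
  intro m
  have hq : 1 ≤ Fintype.card F - 1 := by have : 1 < Fintype.card F := Fintype.one_lt_card; omega
  have hdis : ∀ {R : Finset V} (L : Dual F V), (∀ v ∈ R, ∀ c : F, c ≠ 0 → c • v ∈ R) → (∀ v ∈ R, v ≠ 0) →
      ∀ v ∈ R, L v = 0 → (R.filter fun x => L x ≠ 0).card + (Fintype.card F - 1) ≤ R.card := by
    intro R L hcone hne v hv hLv
    have h1 : Disjoint (R.filter fun x => L x ≠ 0) (ray F v) := by
      rw [Finset.disjoint_left]
      intro u hu hu2
      obtain ⟨c, hc, rfl⟩ := mem_ray.1 hu2
      exact (Finset.mem_filter.1 hu).2 (by simp [hLv])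
    rw [← card_ray (F := F) (hne v hv), ← Finset.card_union_of_disjoint h1]
    exact Finset.card_le_card (Finset.union_subset (Finset.filter_subset _ _) (ray_subset hcone hv))
  induction m with
  | zero =>
    intro R w k h hR
    obtain ⟨v, hv⟩ := hR
    obtain ⟨u, hu, huv⟩ := h.exists_not_mem hv
    have h1 : 2 * (Fintype.card F - 1) ≤ R.card := by
      have hd2 : Disjoint (ray F v) (ray F u) := by
        rw [Finset.disjoint_left]
        intro y hy hy2
        obtain ⟨c, hc, rfl⟩ := mem_ray.1 hy
        obtain ⟨d, hd, hd2⟩ := mem_ray.1 hy2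
        apply huv
        rw [Submodule.mem_span_singleton]
        exact ⟨d⁻¹ * c, by rw [mul_smul, ← hd2, smul_smul, inv_mul_cancel₀ hd, one_smul]⟩
      have hc1 : (ray F v ∪ ray F u).card = 2 * (Fintype.card F - 1) := by
        rw [Finset.card_union_of_disjoint hd2, card_ray (h.ne v hv), card_ray (h.ne u hu)]; ring
      rw [← hc1]
      exact Finset.card_le_card (Finset.union_subset (ray_subset h.cone hv) (ray_subset h.cone hu))
    exact ⟨by omega, fun h4 => by omega⟩
  | succ m ih =>
    intro R w k h hR
    obtain ⟨v, hv⟩ := hR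
    obtain ⟨u, hu, huv⟩ := h.exists_not_mem hv
    constructor
    · obtain ⟨L, hL, hLv⟩ := Submodule.exists_le_ker_of_notMem huv
      have h1 := (ih (h.filter L) ⟨u, Finset.mem_filter.2 ⟨hu, hL⟩⟩).1
      have h2 := hdis L h.cone h.ne v hv (by
        have := hLv (Submodule.mem_span_singleton_self v)
        simpa using this)
      have h3 : (m + 1 + 2) * (Fintype.card F - 1) = (m + 2) * (Fintype.card F - 1) + (Fintype.card F - 1) := by ring
      omega
    · intro hcard
      by_contra hcon
      push Not at hcon
      obtain ⟨x, hx, hxs⟩ := hcon v u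
      obtain ⟨L, hL, hLvu⟩ := Submodule.exists_le_ker_of_notMem hxs
      have hLv : L v = 0 := by
        have := hLvu (Submodule.subset_span (by simp : v ∈ ({v, u} : Set V)))
        simpa using this
      have hLu : L u = 0 := by
        have := hLvu (Submodule.subset_span (by simp : u ∈ ({v, u} : Set V)))
        simpa using this
      -- the first filter
      have hg := h.filter L
      have hne1 : (R.filter fun v => L v ≠ 0).Nonempty := ⟨x, Finset.mem_filter.2 ⟨hx, hL⟩⟩
      have h2 : (R.filter fun v => L v ≠ 0).card + 2 * (Fintype.card F - 1) ≤ R.card := by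
        have hd1 : Disjoint (R.filter fun v => L v ≠ 0) (ray F v ∪ ray F u) := by
          rw [Finset.disjoint_left]
          intro y hy hy2
          rw [Finset.mem_union] at hy2
          have hy3 := (Finset.mem_filter.1 hy).2
          rcases hy2 with hy2 | hy2
          · obtain ⟨c, -, rfl⟩ := mem_ray.1 hy2
            exact hy3 (by simp [hLv])
          · obtain ⟨c, -, rfl⟩ := mem_ray.1 hy2
            exact hy3 (by simp [hLu])
        have hd2 : Disjoint (ray F v) (ray F u) := by
          rw [Finset.disjoint_left]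
          intro y hy hy2
          obtain ⟨c, hc, rfl⟩ := mem_ray.1 hy
          obtain ⟨d, hd, hd2⟩ := mem_ray.1 hy2
          apply huv
          rw [Submodule.mem_span_singleton]
          refine ⟨d⁻¹ * c, ?_⟩
          rw [mul_smul, ← hd2, smul_smul, inv_mul_cancel₀ hd, one_smul]
        have hc1 : (ray F v ∪ ray F u).card = 2 * (Fintype.card F - 1) := by
          rw [Finset.card_union_of_disjoint hd2, card_ray (h.ne v hv), card_ray (h.ne u hu)]; ring
        rw [← hc1, ← Finset.card_union_of_disjoint hd1]
        exact Finset.card_le_card (Finset.union_subset (Finset.filter_subset _ _)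
          (Finset.union_subset (ray_subset h.cone hv) (ray_subset h.cone hu)))
      have hm : (2 * (m + 1) + 1) * (Fintype.card F - 1) = (2 * m + 1) * (Fintype.card F - 1) + 2 * (Fintype.card F - 1) := by ring
      obtain ⟨hA, hB⟩ := ih hg hne1
      obtain ⟨a, b, hab⟩ := hB (by omega)
      obtain ⟨y, hy, hys⟩ := hcon a b
      obtain ⟨L', hL', hLab⟩ := Submodule.exists_le_ker_of_notMem hys
      have hg' := h.filter L'
      have hC := (ih hg' ⟨y, Finset.mem_filter.2 ⟨hy, hL'⟩⟩).1
      have hd : Disjoint (R.filter fun v => L v ≠ 0) (R.filter fun v => L' v ≠ 0) := by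
        rw [Finset.disjoint_left]
        intro z hz hz2
        have := hLab (hab z hz)
        exact (Finset.mem_filter.1 hz2).2 (by simpa using this)
      have hu2 : (R.filter fun v => L v ≠ 0).card + (R.filter fun v => L' v ≠ 0).card ≤ R.card := by
        rw [← Finset.card_union_of_disjoint hd]
        exact Finset.card_le_card (Finset.union_subset (Finset.filter_subset _ _) (Finset.filter_subset _ _))
      have h5 : (m + 2) * (Fintype.card F - 1) + (m + 2) * (Fintype.card F - 1) =
        (2 * (m + 1) + 1) * (Fintype.card F - 1) + (Fintype.card F - 1) := by ring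
      omega

end H8.PS
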