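import Pool.Agent.H8.PS.CB

/-!
MP_325208 (helper8): counting holes in planes and hyperplanes, and the duality between holes on a plane and functionals
vanishing on it but on no member.
-/

set_option autoImplicit false

open Module Finset
open scoped Classical

namespace H8.PS

variable {F : Type*} [Field F] [Fintype F]

theorem finrank_span_pair {V : Type*} [AddCommGroup V] [Module F V] {a b : V} (ha : a ≠ 0) (hb : b ∉ Submodule.span F {a}) :
    finrank F (Submodule.span F {a, b}) = 2 := by
  have h1 : LinearIndependent F ![a, b] := by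
    rw [LinearIndependent.pair_iff' ha]
    intro c hc
    exact hb (Submodule.mem_span_singleton.2 ⟨c, hc⟩)
  have h2 := finrank_span_eq_card h1
  have h3 : Set.range ![a, b] = {a, b} := by simp [Matrix.range_cons, Set.pair_comm]
  rw [h3] at h2
  simpa using h2

theorem finrank_span_pair_le {V : Type*} [AddCommGroup V] [Module F V] (a b : V) :
    finrank F (Submodule.span F {a, b}) ≤ 2 := by
  have h2 := finrank_range_le_card (R := F) ![a, b]
  have h3 : Set.range ![a, b] = {a, b} := by simp [Matrix.range_cons, Set.pair_comm]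
  rw [Set.finrank, h3] at h2
  simpa using h2

section fam

variable {V : Type*} [AddCommGroup V] [Module F V] [Fintype V] [FiniteDimensional F V]
  {ι : Type*} {s : Finset ι} {A : ι → Submodule F V}

theorem smul_mem_holes {v : V} (hv : v ∈ holes s A) {c : F} (hc : c ≠ 0) : c • v ∈ holes s A := by
  rw [mem_holes] at hv ⊢
  refine ⟨smul_ne_zero hc hv.1, fun i hi h => hv.2 i hi ?_⟩
  exact (Submodule.smul_mem_iff _ hc).1 h

theorem holes_total (hV : finrank F V = 4) (hA : ∀ i ∈ s, ∀ j ∈ s, i ≠ j → A i ⊓ A j = ⊥)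
    (h2 : ∀ i ∈ s, finrank F (A i) = 2) :
    ((holes s A).card : ℤ) = ((Fintype.card F : ℤ) ^ 2 - 1) * ((Fintype.card F : ℤ) ^ 2 + 1 - s.card) := by
  have h := card_holes_inter s A hA ⊤
  have h1 : (holes s A).filter (· ∈ (⊤ : Submodule F V)) = holes s A := by
    apply Finset.filter_true_of_mem; simp
  rw [h1, finrank_top, hV] at h
  have h3 : ∑ i ∈ s, ((Fintype.card F : ℤ) ^ finrank F (A i ⊓ ⊤ : Submodule F V) - 1) =
      s.card * ((Fintype.card F : ℤ) ^ 2 - 1) := by
    rw [Finset.sum_congr rfl fun i hi => by rw [inf_top_eq, h2 i hi], Finset.sum_const, nsmul_eq_mul]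
  rw [h, h3]; ring

theorem one_le_inf (hV : finrank F V = 4) {A N : Submodule F V} (h2 : finrank F A = 2) (hN : finrank F N = 3) :
    1 ≤ finrank F (A ⊓ N : Submodule F V) := by
  have h := Submodule.finrank_sup_add_finrank_inf_eq A N
  have h1 := Submodule.finrank_le (A ⊔ N)
  omega

theorem holes_hyperplane (hV : finrank F V = 4) (hA : ∀ i ∈ s, ∀ j ∈ s, i ≠ j → A i ⊓ A j = ⊥)
    (h2 : ∀ i ∈ s, finrank F (A i) = 2) (N : Submodule F V) (hN : finrank F N = 3) :
    (((holes s A).filter (· ∈ N)).card : ℤ) ≤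
      ((Fintype.card F : ℤ) - 1) * ((Fintype.card F : ℤ) ^ 2 + Fintype.card F + 1 - s.card) := by
  rw [card_holes_inter s A hA N, hN]
  have hq : (1 : ℤ) ≤ Fintype.card F := by exact_mod_cast Fintype.card_pos
  have h1 : (s.card : ℤ) * ((Fintype.card F : ℤ) - 1) ≤
      ∑ i ∈ s, ((Fintype.card F : ℤ) ^ finrank F (A i ⊓ N : Submodule F V) - 1) := by
    have : (s.card : ℤ) * ((Fintype.card F : ℤ) - 1) = ∑ i ∈ s, ((Fintype.card F : ℤ) - 1) := by
      rw [Finset.sum_const, nsmul_eq_mul]
    rw [this]
    refine Finset.sum_le_sum fun i hi => ?_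
    have := pow_le_pow_right₀ hq (one_le_inf hV (h2 i hi) hN)
    rw [pow_one] at this; linarith
  nlinarith [h1]

theorem holes_hyperplane_poor (hV : finrank F V = 4) (hA : ∀ i ∈ s, ∀ j ∈ s, i ≠ j → A i ⊓ A j = ⊥)
    (h2 : ∀ i ∈ s, finrank F (A i) = 2) (N : Submodule F V) (hN : finrank F N = 3) {i₀ : ι} (hi : i₀ ∈ s) (hi₀ : A i₀ ≤ N) :
    (((holes s A).filter (· ∈ N)).card : ℤ) ≤
      ((Fintype.card F : ℤ) - 1) * ((Fintype.card F : ℤ) ^ 2 + 1 - s.card) := by
  rw [card_holes_inter s A hA N, hN, ← Finset.add_sum_erase s _ hi]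
  have hq : (1 : ℤ) ≤ Fintype.card F := by exact_mod_cast Fintype.card_pos
  have h0 : finrank F (A i₀ ⊓ N : Submodule F V) = 2 := by rw [inf_eq_left.2 hi₀]; exact h2 _ hi
  have hc : ((s.erase i₀).card : ℤ) = s.card - 1 := by
    rw [Finset.card_erase_of_mem hi]
    have : 1 ≤ s.card := Finset.card_pos.2 ⟨_, hi⟩
    push_cast [this]; ring
  have h1 : ((s.card : ℤ) - 1) * ((Fintype.card F : ℤ) - 1) ≤
      ∑ i ∈ s.erase i₀, ((Fintype.card F : ℤ) ^ finrank F (A i ⊓ N : Submodule F V) - 1) := by
    have : ((s.card : ℤ) - 1) * ((Fintype.card F : ℤ) - 1) = ∑ i ∈ s.erase i₀, ((Fintype.card F : ℤ) - 1) := by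
      rw [Finset.sum_const, nsmul_eq_mul, hc]
    rw [this]
    refine Finset.sum_le_sum fun i hi => ?_
    have := pow_le_pow_right₀ hq (one_le_inf hV (h2 i (Finset.mem_of_mem_erase hi)) hN)
    rw [pow_one] at this; linarith
  rw [h0]
  nlinarith [h1]

end fam

section dual

variable {V : Type*} [AddCommGroup V] [Module F V] [Fintype V] [FiniteDimensional F V]

instance : Finite (Dual F V) := Finite.of_injective (fun f : Dual F V => (f : V → F)) DFunLike.coe_injective

noncomputable instance : Fintype (Dual F V) := Fintype.ofFinite _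

theorem dual_finrank {W : Submodule F V} (hV : finrank F V = 4) {k : ℕ} (hW : finrank F W = k) :
    finrank F W.dualAnnihilator = 4 - k := by
  have := Subspace.finrank_add_finrank_dualAnnihilator_eq W
  omega

theorem dual_disjoint (hV : finrank F V = 4) {W W' : Submodule F V} (h : W ⊓ W' = ⊥) (hW : finrank F W = 2)
    (hW' : finrank F W' = 2) : W.dualAnnihilator ⊓ W'.dualAnnihilator = ⊥ := by
  rw [← Submodule.dualAnnihilator_sup_eq]
  have h1 := Submodule.finrank_sup_add_finrank_inf_eq W W'
  rw [h, finrank_bot, hW, hW'] at h1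
  have h2 : W ⊔ W' = ⊤ := Submodule.eq_top_of_finrank_eq (by omega)
  rw [h2, Submodule.dualAnnihilator_top]

/-- The number of holes on a plane `N` equals the number of functionals vanishing on `N` and on no member. -/
theorem duality {S : Finset (Submodule F V)} (hV : finrank F V = 4)
    (hd : ∀ W ∈ S, ∀ W' ∈ S, W ≠ W' → W ⊓ W' = ⊥) (h2 : ∀ W ∈ S, finrank F W = 2)
    {N : Submodule F V} (hN : finrank F N = 2) :
    ((holes S fun W => W).filter (· ∈ N)).card =
      ((holes S fun W => W.dualAnnihilator).filter (· ∈ N.dualAnnihilator)).card := by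
  have h1 := card_holes_inter S (fun W => W) hd N
  have h3 := card_holes_inter S (fun W => W.dualAnnihilator)
    (fun W hW W' hW' h => dual_disjoint hV (hd W hW W' hW' h) (h2 W hW) (h2 W' hW')) N.dualAnnihilator
  have h4 : ∀ W ∈ S, finrank F (W.dualAnnihilator ⊓ N.dualAnnihilator : Submodule F (Dual F V)) =
      finrank F (W ⊓ N : Submodule F V) := by
    intro W hW
    rw [← Submodule.dualAnnihilator_sup_eq]
    have h5 := Subspace.finrank_add_finrank_dualAnnihilator_eq (W ⊔ N)
    have h6 := Submodule.finrank_sup_add_finrank_inf_eq W N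
    rw [h2 W hW, hN] at h6
    omega
  rw [Finset.sum_congr rfl fun W hW => by rw [h4 W hW], dual_finrank hV hN] at h3
  rw [hN] at h1
  have : (((holes S fun W => W).filter (· ∈ N)).card : ℤ) =
      ((holes S fun W => W.dualAnnihilator).filter (· ∈ N.dualAnnihilator)).card := by
    rw [h1, h3]
  exact_mod_cast this

end dual

end H8.PS
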