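import Pool.Agent.H8.PS.Main

/-!
MP_325208 (helper8): end of the proof of the bound `2 |S| + q ≤ 2 q ^ 2` for maximal partial spreads that are not spreads.
-/

set_option autoImplicit false

open Module Finset
open scoped Classical

namespace H8.PS

variable {F : Type*} [Field F] [Fintype F]
variable {V : Type*} [AddCommGroup V] [Module F V] [Fintype V] [FiniteDimensional F V]

/-- A functional cutting a hyperplane `P` out of `Q`. -/
theorem exists_cut {P Q : Submodule F V} (hPQ : P ≤ Q) (h : finrank F P + 1 = finrank F Q) :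
    ∃ f : Dual F V, ∃ x₀ ∈ Q, P ≤ LinearMap.ker f ∧ f x₀ = 1 ∧ ∀ x ∈ Q, f x = 0 → x ∈ P := by
  have hlt : P < Q := by
    refine lt_of_le_of_ne hPQ ?_
    rintro rfl
    omega
  obtain ⟨e, he, heP⟩ := SetLike.exists_of_lt hlt
  obtain ⟨g, hg, hgP⟩ := Submodule.exists_le_ker_of_notMem heP
  have h1 : P = Q ⊓ LinearMap.ker g := by
    refine Submodule.eq_of_le_of_finrank_le (le_inf hPQ hgP) ?_
    have h2 : Q ⊓ LinearMap.ker g < Q := by
      refine lt_of_le_of_ne inf_le_left ?_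
      intro heq
      rw [← heq] at he
      exact hg he.2
    have := Submodule.finrank_lt_finrank_of_lt h2
    omega
  refine ⟨(g e)⁻¹ • g, e, he, ?_, by rw [LinearMap.smul_apply, smul_eq_mul, inv_mul_cancel₀ hg], ?_⟩
  · intro x hx
    have := hgP hx
    rw [LinearMap.mem_ker] at this ⊢
    rw [LinearMap.smul_apply, this, smul_zero]
  · intro x hx hx0
    rw [h1]
    refine ⟨hx, ?_⟩
    rw [LinearMap.smul_apply, smul_eq_mul] at hx0
    exact (mul_eq_zero.1 hx0).resolve_left (inv_ne_zero hg)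

/-- the holes on no rich plane through `Z` other than `δ` -/
noncomputable def RR (S : Finset (Submodule F V)) (Z E : V) (δ : Dual F V) : Finset V :=
  (holes S fun W => W).filter fun v => ∀ θ ∈ (DD S Z E).erase δ, θ v ≠ 0

theorem mem_RR {S : Finset (Submodule F V)} {Z E : V} {δ : Dual F V} {v : V} :
    v ∈ RR S Z E δ ↔ v ∈ (holes S fun W => W) ∧ ∀ θ ∈ DD S Z E, θ ≠ δ → θ v ≠ 0 := by
  simp only [RR, Finset.mem_filter, Finset.mem_erase]
  constructor
  · rintro ⟨h1, h2⟩; exact ⟨h1, fun θ hθ hne => h2 θ ⟨hne, hθ⟩⟩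
  · rintro ⟨h1, h2⟩; exact ⟨h1, fun θ hθ => h2 θ hθ.2 hθ.1⟩

/-- The second part of the configuration: a rich plane through `Z` and a line with two holes through `Z` in it. -/
structure Conf2 (S : Finset (Submodule F V)) (Z E : V) (δ : Dual F V) (v₁ v₂ : V) : Prop extends Conf (F := F) S Z E where
  hδ : δ ∈ DD S Z E
  h₁ : v₁ ∈ holes S fun W => W
  h₂ : v₂ ∈ holes S fun W => W
  hne : v₂ ∉ Submodule.span F {v₁}
  hZ : Z ∈ Submodule.span F {v₁, v₂}
  d₁ : δ v₁ = 0
  d₂ : δ v₂ = 0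

namespace Conf2

variable {S : Finset (Submodule F V)} {Z E : V} {δ : Dual F V} {v₁ v₂ : V} (C : Conf2 (F := F) S Z E δ v₁ v₂)
include C

theorem rN : finrank F (Submodule.span F {v₁, v₂}) = 2 := finrank_span_pair (mem_holes.1 C.h₁).1 C.hne

theorem rK : finrank F (LinearMap.ker δ) = 3 := by
  have h0 : δ ≠ 0 := (mem_holes.1 (mem_DD.1 C.hδ).1).1
  have := Module.Dual.finrank_ker_add_one_of_ne_zero (K := F) (f := δ) h0
  have := C.hV
  omega

theorem NK : Submodule.span F {v₁, v₂} ≤ LinearMap.ker δ := by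
  rw [Submodule.span_le]
  rintro x (rfl | hx)
  · exact C.d₁
  · rw [Set.mem_singleton_iff] at hx; subst hx; exact C.d₂

theorem coords : ∃ α β : Dual F V, α Z = 0 ∧ β Z = 0 ∧ (∀ x, δ x = 0 → β x = 0 → x ∈ Submodule.span F {v₁, v₂}) ∧
    (∀ x ∈ Submodule.span F {v₁, v₂}, α x = 0 → x ∈ Submodule.span F {Z}) ∧
    (∀ y z : F, ∃ u, δ u = 0 ∧ α u = y ∧ β u = z) := by
  obtain ⟨β, e, he, hβN, hβe, hβ⟩ := exists_cut C.NK (by rw [C.rN, C.rK])
  obtain ⟨α, a, ha, hαZ, hαa, hα⟩ := exists_cut (P := Submodule.span F {Z}) (Q := Submodule.span F {v₁, v₂})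
    (by rw [Submodule.span_le]; simpa using C.hZ) (by rw [C.rN, finrank_span_singleton C.hZ0])
  refine ⟨α, β, ?_, ?_, fun x hx => hβ x hx, hα, ?_⟩
  · exact hαZ (Submodule.mem_span_singleton_self Z)
  · exact hβN C.hZ
  · intro y z
    have h1 : β a = 0 := hβN ha
    have h2 : δ a = 0 := C.NK ha
    have h3 : δ e = 0 := he
    refine ⟨z • e + (y - z * α e) • a, ?_, ?_, ?_⟩
    · simp [h2, h3]
    · simp [hαa]
    · simp [hβe, h1]

theorem RR_ker {v : V} (hv : v ∈ RR S Z E δ) : δ v = 0 := by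
  rw [mem_RR] at hv
  obtain ⟨θ, hθ, h⟩ := C.exists_D hv.1
  by_contra hne
  refine hv.2 θ hθ ?_ h
  rintro rfl
  exact hne h

theorem RR_tangent {v : V} (hv : v ∈ RR S Z E δ) :
    ∀ x ∈ holes S fun W => W, x ∈ Submodule.span F {Z, v} → x ∈ Submodule.span F {v} :=
  C.tangent_of_unique (mem_RR.1 hv).1 (mem_RR.1 hv).2

theorem card_RR_le : (RR S Z E δ).card ≤ Fintype.card F * (Fintype.card F - 1) := by
  obtain ⟨α, β, hαZ, hβZ, hβ, hα, -⟩ := C.coords
  have h1 : (Finset.univ ×ˢ (Finset.univ.filter fun c : F => c ≠ 0) : Finset (F × F)).card =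
      Fintype.card F * (Fintype.card F - 1) := by
    rw [Finset.card_product, card_ne_zero_filter, Finset.card_univ]
  rw [← h1]
  refine Finset.card_le_card_of_injOn (fun v => (α v, β v)) ?_ ?_
  · intro v hv
    rw [Finset.mem_coe] at hv
    simp only [Finset.coe_product, Set.mem_prod, Finset.mem_coe, Finset.mem_univ, true_and, Finset.mem_filter]
    intro hβv
    have hvN := hβ v (C.RR_ker hv) hβv
    have hvH := (mem_RR.1 hv).1
    have h3 : Submodule.span F {Z, v} = Submodule.span F {v₁, v₂} := by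
      refine Submodule.eq_of_le_of_finrank_le ?_ (by rw [C.rN, C.finrank_line hvH])
      rw [Submodule.span_le]
      rintro x (rfl | hx)
      · exact C.hZ
      · rw [Set.mem_singleton_iff] at hx; subst hx; exact hvN
    have h4 := C.RR_tangent hv v₁ C.h₁ (by rw [h3]; exact Submodule.subset_span (by simp))
    have h5 := C.RR_tangent hv v₂ C.h₂ (by rw [h3]; exact Submodule.subset_span (by simp))
    obtain ⟨c, hc⟩ := Submodule.mem_span_singleton.1 h4
    obtain ⟨d, hd⟩ := Submodule.mem_span_singleton.1 h5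
    have hc0 : c ≠ 0 := by
      rintro rfl
      rw [zero_smul] at hc
      exact (mem_holes.1 C.h₁).1 hc.symm
    apply C.hne
    rw [Submodule.mem_span_singleton]
    exact ⟨d * c⁻¹, by rw [← hc, smul_smul, mul_assoc, inv_mul_cancel₀ hc0, mul_one, hd]⟩
  · intro v hv v' hv' heq
    rw [Finset.mem_coe] at hv hv'
    simp only [Prod.mk.injEq] at heq
    have h3 : v - v' ∈ Submodule.span F {Z} := by
      apply hα
      · apply hβ
        · rw [map_sub, C.RR_ker hv, C.RR_ker hv', sub_zero]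
        · rw [map_sub, heq.2, sub_self]
      · rw [map_sub, heq.1, sub_self]
    obtain ⟨c, hc⟩ := Submodule.mem_span_singleton.1 h3
    have h4 : v' ∈ Submodule.span F {Z, v} := by
      rw [Submodule.mem_span_pair]
      exact ⟨-c, 1, by rw [neg_smul, hc, one_smul]; abel⟩
    obtain ⟨e, he⟩ := Submodule.mem_span_singleton.1 (C.RR_tangent hv v' (mem_RR.1 hv').1 h4)
    by_cases he1 : e = 1
    · rw [he1, one_smul] at he; exact he
    · exfalso
      apply C.not_span (mem_RR.1 hv).1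
      rw [Submodule.mem_span_singleton]
      have h5 : (1 - e) • v = c • Z := by rw [sub_smul, one_smul, he, hc]
      have h6 : (1 - e) ≠ 0 := sub_ne_zero.2 (Ne.symm he1)
      exact ⟨(1 - e)⁻¹ * c, by rw [mul_smul, ← h5, smul_smul, inv_mul_cancel₀ h6, one_smul]⟩

/-- a hole on a line through `Z` can be moved into a given class modulo `Z` -/
theorem rescale {u x : V} (hx : x ∈ holes S fun W => W) (hxu : x ∈ Submodule.span F {Z, u}) :
    ∃ c p : F, c ≠ 0 ∧ c⁻¹ • x = p • Z + u := by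
  obtain ⟨p, c, rfl⟩ := Submodule.mem_span_pair.1 hxu
  have hc : c ≠ 0 := by
    rintro rfl
    apply C.not_span hx
    rw [zero_smul, add_zero]
    exact Submodule.smul_mem _ _ (Submodule.mem_span_singleton_self _)
  exact ⟨c, c⁻¹ * p, hc, by rw [smul_add, smul_smul, smul_smul, inv_mul_cancel₀ hc, one_smul]⟩

theorem RR_nonempty (hd : (Fintype.card F : ℤ) ^ 2 + 1 - S.card < Fintype.card F + 2) : (RR S Z E δ).Nonempty := by
  by_contra hemp
  rw [Finset.not_nonempty_iff_eq_empty] at hemp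
  obtain ⟨α, β, hαZ, hβZ, hβ, hα, hsurj⟩ := C.coords
  have hq : 1 < Fintype.card F := Fintype.one_lt_card
  have hδZ : δ Z = 0 := (mem_DD.1 C.hδ).2.1
  have hup := holes_hyperplane C.hV C.hd C.h2 (LinearMap.ker δ) C.rK
  set B := (holes S fun W => W).filter (· ∈ LinearMap.ker δ) with hB
  have hmaps : ∀ v ∈ B, ((α v, β v) : F × F) ∈ (Finset.univ.erase (0, 0) : Finset (F × F)) := by
    intro v hv
    rw [Finset.mem_erase]
    refine ⟨fun h => ?_, Finset.mem_univ _⟩
    rw [hB, Finset.mem_filter] at hv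
    simp only [Prod.mk.injEq] at h
    exact C.not_span hv.1 (hα v (hβ v hv.2 h.2) h.1)
  have hcard := Finset.card_eq_sum_card_fiberwise (f := fun v => ((α v, β v) : F × F)) hmaps
  have hfib : ∀ b ∈ (Finset.univ.erase (0, 0) : Finset (F × F)), 2 ≤ (B.filter fun v => ((α v, β v) : F × F) = b).card := by
    rintro ⟨y, z⟩ hb
    obtain ⟨u, hu, hαu, hβu⟩ := hsurj y z
    have huZ : u ∉ Submodule.span F {Z} := by
      intro h
      obtain ⟨c, rfl⟩ := Submodule.mem_span_singleton.1 h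
      rw [Finset.mem_erase] at hb
      apply hb.1
      rw [← hαu, ← hβu]
      simp [hαZ, hβZ]
    have hr := finrank_span_pair C.hZ0 huZ
    have hdu := duality C.hV C.hd C.h2 hr
    have hpos : 0 < ((holes S fun W => W).filter (· ∈ Submodule.span F {Z, u})).card := by
      rw [hdu]
      refine Finset.card_pos.2 ⟨δ, ?_⟩
      rw [Finset.mem_filter, mem_ann_pair]
      exact ⟨(mem_DD.1 C.hδ).1, hδZ, hu⟩
    obtain ⟨x, hx⟩ := Finset.card_pos.1 hpos
    rw [Finset.mem_filter] at hx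
    obtain ⟨c, p, hc, hcx⟩ := C.rescale hx.1 hx.2
    have hv0 : c⁻¹ • x ∈ holes S fun W => W := smul_mem_holes hx.1 (inv_ne_zero hc)
    have h0 : δ (c⁻¹ • x) = 0 ∧ α (c⁻¹ • x) = y ∧ β (c⁻¹ • x) = z := by
      rw [hcx]; simp [hδZ, hu, hαZ, hβZ, hαu, hβu]
    have hnot : c⁻¹ • x ∉ RR S Z E δ := by rw [hemp]; simp
    have hex : ∃ θ ∈ DD S Z E, θ ≠ δ ∧ θ (c⁻¹ • x) = 0 := by
      by_contra hcon
      push Not at hcon
      exact hnot (mem_RR.2 ⟨hv0, hcon⟩)
    obtain ⟨θ, hθ, hθδ, hθ0⟩ := hex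
    have hnt : ∃ x' ∈ holes S fun W => W, x' ∈ Submodule.span F {Z, c⁻¹ • x} ∧ x' ∉ Submodule.span F {c⁻¹ • x} := by
      by_contra hcon
      push Not at hcon
      exact hθδ (C.unique_of_tangent hv0 hcon C.hδ hθ h0.1 hθ0)
    obtain ⟨x', hx', hx's, hx'n⟩ := hnt
    obtain ⟨c', p', hc', hcx'⟩ := C.rescale hx' hx's
    have h1 : δ (c'⁻¹ • x') = 0 ∧ α (c'⁻¹ • x') = y ∧ β (c'⁻¹ • x') = z := by
      rw [hcx', map_add, map_add, map_add, h0.1, h0.2.1, h0.2.2]; simp [hδZ, hαZ, hβZ]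
    have hne : c⁻¹ • x ≠ c'⁻¹ • x' := by
      intro heq
      apply hx'n
      rw [Submodule.mem_span_singleton]
      exact ⟨c', by rw [heq, smul_smul, mul_inv_cancel₀ hc', one_smul]⟩
    have hsub : ({c⁻¹ • x, c'⁻¹ • x'} : Finset V) ⊆ B.filter fun v => ((α v, β v) : F × F) = (y, z) := by
      intro w hw
      rw [Finset.mem_insert, Finset.mem_singleton] at hw
      rw [Finset.mem_filter, hB, Finset.mem_filter]
      rcases hw with rfl | rfl
      · exact ⟨⟨hv0, h0.1⟩, by rw [h0.2.1, h0.2.2]⟩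
      · exact ⟨⟨smul_mem_holes hx' (inv_ne_zero hc'), h1.1⟩, by rw [h1.2.1, h1.2.2]⟩
    have := Finset.card_le_card hsub
    rwa [Finset.card_pair hne] at this
  have h2 : 2 * (Fintype.card F ^ 2 - 1) ≤ B.card := by
    rw [hcard]
    have := Finset.card_nsmul_le_sum _ _ 2 hfib
    rw [Finset.card_erase_of_mem (Finset.mem_univ _), Finset.card_univ, Fintype.card_prod, smul_eq_mul] at this
    have h3 : Fintype.card F ^ 2 = Fintype.card F * Fintype.card F := sq _
    rw [h3]; omega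
  have h3 : 2 * ((Fintype.card F : ℤ) ^ 2 - 1) ≤ B.card := by
    have h4 : 1 ≤ Fintype.card F ^ 2 := Nat.one_le_pow _ _ (by omega)
    have : ((2 * (Fintype.card F ^ 2 - 1) : ℕ) : ℤ) = 2 * ((Fintype.card F : ℤ) ^ 2 - 1) := by push_cast [h4]; ring
    rw [← this]; exact_mod_cast h2
  have h5 := h3.trans hup
  have hq' : (0 : ℤ) < (Fintype.card F : ℤ) - 1 := by
    have : (1 : ℤ) < Fintype.card F := by exact_mod_cast hq
    linarith
  nlinarith [mul_pos hq' (sub_pos.2 hd)]

end Conf2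

/-- **Main theorem.** -/
theorem main (hV : finrank F V = 4) {S : Finset (Submodule F V)} (h2 : ∀ W ∈ S, finrank F W = 2)
    (hd : ∀ W ∈ S, ∀ W' ∈ S, W ≠ W' → W ⊓ W' = ⊥)
    (hmax : ∀ U : Submodule F V, finrank F U = 2 → U ∉ S → ∃ W ∈ S, U ⊓ W ≠ ⊥)
    (hh : ∃ v : V, v ≠ 0 ∧ ∀ W ∈ S, v ∉ W) :
    2 * S.card + Fintype.card F ≤ 2 * Fintype.card F ^ 2 := by
  by_contra hcon
  have hq : 1 < Fintype.card F := Fintype.one_lt_card
  have hqz : (1 : ℤ) < Fintype.card F := by exact_mod_cast hq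
  have hlt : 2 * ((Fintype.card F : ℤ) ^ 2 + 1 - S.card) < Fintype.card F + 2 := by
    have : 2 * Fintype.card F ^ 2 < 2 * S.card + Fintype.card F := not_le.1 hcon
    have : (2 : ℤ) * (Fintype.card F : ℤ) ^ 2 < 2 * S.card + Fintype.card F := by exact_mod_cast this
    linarith
  obtain ⟨v₁, hv₁0, hv₁⟩ := hh
  have h₁ : v₁ ∈ holes S fun W => W := mem_holes.2 ⟨hv₁0, hv₁⟩
  -- a second hole
  have hv₂ : ∃ v₂ ∈ holes S fun W => W, v₂ ∉ Submodule.span F {v₁} := by
    by_contra hcon2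
    push Not at hcon2
    have h3 := card_le_of_span (fun v hv => (mem_holes.1 hv).1) hv₁0 hcon2
    have h4 := holes_total hV hd h2
    have h5 : 0 < (holes S fun W : Submodule F V => W).card := Finset.card_pos.2 ⟨_, h₁⟩
    have h6 : (0 : ℤ) < ((Fintype.card F : ℤ) ^ 2 - 1) * ((Fintype.card F : ℤ) ^ 2 + 1 - S.card) := by
      rw [← h4]; exact_mod_cast h5
    have h7 : (0 : ℤ) < (Fintype.card F : ℤ) ^ 2 - 1 := by nlinarith
    have h8 : (1 : ℤ) ≤ (Fintype.card F : ℤ) ^ 2 + 1 - S.card := by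
      have := (mul_pos_iff_of_pos_left h7).1 h6
      linarith
    have h9 : ((holes S fun W : Submodule F V => W).card : ℤ) ≤ (Fintype.card F : ℤ) - 1 := by
      have : ((Fintype.card F - 1 : ℕ) : ℤ) = (Fintype.card F : ℤ) - 1 := by push_cast [hq.le]; ring
      rw [← this]; exact_mod_cast h3
    rw [h4] at h9
    nlinarith
  obtain ⟨v₂, h₂, hne⟩ := hv₂
  have rN := finrank_span_pair hv₁0 hne
  obtain ⟨W₀, hW₀, Z, hZ, hZ0, hZW⟩ := exists_covered hmax rN h₁ (Submodule.subset_span (by simp))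
  -- a second vector of `W₀`
  obtain ⟨E, hEW, hE⟩ : ∃ E ∈ W₀, E ∉ Submodule.span F {Z} := by
    by_contra hcon3
    push Not at hcon3
    have h3 : W₀ ≤ Submodule.span F {Z} := hcon3
    have h4 := Submodule.finrank_mono h3
    rw [h2 W₀ hW₀, finrank_span_singleton hZ0] at h4
    omega
  have C : Conf (F := F) S Z E := ⟨hV, hd, h2, hZ0, ⟨W₀, hW₀, hZW, hEW⟩, hE⟩
  -- a rich plane
  obtain ⟨δ, hδ, d₁, d₂⟩ : ∃ δ ∈ DD S Z E, δ v₁ = 0 ∧ δ v₂ = 0 := by
    have h3 := duality hV hd h2 rN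
    have h4 : 0 < ((holes S fun W => W).filter (· ∈ Submodule.span F {v₁, v₂})).card := by
      refine Finset.card_pos.2 ⟨v₁, ?_⟩
      rw [Finset.mem_filter]
      exact ⟨h₁, Submodule.subset_span (by simp)⟩
    rw [h3] at h4
    obtain ⟨θ, hθ⟩ := Finset.card_pos.1 h4
    rw [Finset.mem_filter, mem_ann_pair] at hθ
    have hθZ : θ Z = 0 := by
      obtain ⟨x, y, rfl⟩ := Submodule.mem_span_pair.1 hZ
      simp [hθ.2.1, hθ.2.2]
    exact ⟨_, C.norm hθ.1 hθZ, by simp [hθ.2.1], by simp [hθ.2.2]⟩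
  have C2 : Conf2 (F := F) S Z E δ v₁ v₂ := ⟨C, hδ, h₁, h₂, hne, hZ, d₁, d₂⟩
  -- the numbers
  have hD := card_DD hV hd h2 (E := E) hW₀ hZW hZ0
  have hDpos : 1 ≤ (DD S Z E).card := Finset.card_pos.2 ⟨_, hδ⟩
  set k := ((DD S Z E).erase δ).card with hk
  have hk1 : k + 1 = (DD S Z E).card := by
    rw [hk, Finset.card_erase_of_mem hδ]; omega
  have hkz : (k : ℤ) + 1 ≤ (Fintype.card F : ℤ) ^ 2 + 1 - S.card := by
    have : ((k + 1 : ℕ) : ℤ) = (DD S Z E).card := by rw [hk1]
    push_cast at this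
    rw [this]; exact hD
  have hkq : k ≤ Fintype.card F - 1 := by
    have h3 : 2 * ((k : ℤ) + 1) < Fintype.card F + 2 := by linarith
    have h4 : 2 * (k + 1) < Fintype.card F + 2 := by exact_mod_cast h3
    omega
  obtain ⟨m, hm⟩ : ∃ m, k + m = Fintype.card F - 1 := ⟨Fintype.card F - 1 - k, by omega⟩
  set R := RR S Z E δ with hR
  have hRne : R.Nonempty := C2.RR_nonempty (by linarith)
  have hRle : R.card ≤ Fintype.card F * (Fintype.card F - 1) := C2.card_RR_le
  have hgood : Good R (fun v => ∏ θ ∈ (DD S Z E).erase δ, θ v) k m := by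
    refine ⟨hm, fun v hv => (mem_holes.1 (mem_RR.1 hv).1).1, ?_, ?_, ?_, ?_⟩
    · intro v hv c hc
      rw [hR, mem_RR] at hv ⊢
      refine ⟨smul_mem_holes hv.1 hc, fun θ hθ hθδ => ?_⟩
      rw [map_smul]
      exact smul_ne_zero hc (hv.2 θ hθ hθδ)
    · intro v hv
      rw [hR, mem_RR] at hv
      refine Finset.prod_ne_zero_iff.2 fun θ hθ => ?_
      rw [Finset.mem_erase] at hθ
      exact hv.2 θ hθ.2 hθ.1
    · intro v c _
      simp only [map_smul, smul_eq_mul]
      rw [Finset.prod_mul_distrib, Finset.prod_const]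
    · intro L
      have h3 := sum_holes S (fun W => W) hd h2 (by omega)
        (Finset.univ : Finset ({θ // θ ∈ (DD S Z E).erase δ} ⊕ Fin m))
        (Sum.elim (fun θ => θ.1) L) (by
          rw [Finset.card_univ, Fintype.card_sum, Fintype.card_coe, Fintype.card_fin]
          exact hm)
      rw [hR, RR, Finset.sum_filter]
      refine Eq.trans (Finset.sum_congr rfl fun v _ => ?_) h3
      rw [Fintype.prod_sum_type]
      simp only [Sum.elim_inl, Sum.elim_inr]
      rw [Finset.prod_coe_sort ((DD S Z E).erase δ) fun θ => θ v]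
      by_cases hall : ∀ θ ∈ (DD S Z E).erase δ, θ v ≠ 0
      · rw [if_pos hall]
      · rw [if_neg hall]
        push Not at hall
        obtain ⟨θ, hθ, hθ0⟩ := hall
        rw [Finset.prod_eq_zero hθ hθ0, zero_mul]
  obtain ⟨hA, hBB⟩ := Good.cb m hgood hRne
  have hmz : (Fintype.card F : ℤ) - 1 = k + m := by
    have : ((k + m : ℕ) : ℤ) = ((Fintype.card F - 1 : ℕ) : ℤ) := by rw [hm]
    push_cast [hq.le] at this
    linarith
  have hm2 : Fintype.card F ≤ 2 * m + 1 := by
    have : (Fintype.card F : ℤ) ≤ 2 * m + 1 := by linarith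
    exact_mod_cast this
  obtain ⟨a, b, hab⟩ := hBB (hRle.trans (Nat.mul_le_mul_right _ hm2))
  obtain ⟨v, hv⟩ := hRne
  obtain ⟨u, hu, huv⟩ := hgood.exists_not_mem hv
  have hv0 : v ≠ 0 := hgood.ne v hv
  have hU : finrank F (Submodule.span F {a, b}) = 2 := by
    refine le_antisymm (finrank_span_pair_le a b) ?_
    rw [← finrank_span_pair hv0 huv]
    apply Submodule.finrank_mono
    rw [Submodule.span_le]
    rintro x (rfl | hx)
    · exact hab _ hv
    · rw [Set.mem_singleton_iff] at hx; subst hx; exact hab _ hu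
  have h10 := holes_plane hV hd h2 hmax hU (mem_RR.1 hv).1 (hab v hv) (R := R)
    (fun x hx => (mem_RR.1 hx).1) hab
  have h11 : ((m : ℤ) + 2) * ((Fintype.card F : ℤ) - 1) ≤ R.card := by
    have : (((m + 2) * (Fintype.card F - 1) : ℕ) : ℤ) ≤ R.card := by exact_mod_cast hA
    push_cast [hq.le] at this
    exact this
  have h12 := h11.trans h10
  have hq' : (0 : ℤ) < (Fintype.card F : ℤ) - 1 := by linarith
  rw [mul_comm] at h12
  have h13 := le_of_mul_le_mul_left h12 hq'
  linarith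

end H8.PS
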