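import Mathlib

/-!
MP_325208 (helper8): sums of products of linear functionals over subspaces of a vector space over a finite field, and the
partition of a space into the members of a partial spread and the holes.
-/

set_option autoImplicit false

open Module Finset
open scoped Classical

namespace H8.PS

variable {F : Type*} [Field F] [Fintype F]

/-- A product of fewer than `(q - 1) dim W` linear functionals sums to zero over `W`. -/
theorem sum_prod_dual {W : Type*} [AddCommGroup W] [Module F W] [Fintype W] [FiniteDimensional F W]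
    {ι : Type*} (s : Finset ι) (L : ι → Dual F W) (h : s.card < (Fintype.card F - 1) * finrank F W) :
    ∑ w : W, ∏ i ∈ s, L i w = 0 := by
  classical
  let b := finBasis F W
  let P : MvPolynomial (Fin (finrank F W)) F :=
    ∏ i ∈ s, ∑ k, MvPolynomial.C (L i (b k)) * MvPolynomial.X k
  have hP : ∀ x : Fin (finrank F W) → F, MvPolynomial.eval x P = ∏ i ∈ s, L i (b.equivFun.symm x) := by
    intro x
    simp only [P, map_prod, map_sum, map_mul, MvPolynomial.eval_C, MvPolynomial.eval_X]
    refine Finset.prod_congr rfl fun i _ => ?_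
    rw [Basis.equivFun_symm_apply, map_sum]
    refine Finset.sum_congr rfl fun k _ => ?_
    rw [map_smul, smul_eq_mul, mul_comm]
  have hdeg : P.totalDegree < (Fintype.card F - 1) * Fintype.card (Fin (finrank F W)) := by
    rw [Fintype.card_fin]
    refine lt_of_le_of_lt ?_ h
    refine (MvPolynomial.totalDegree_finsetProd _ _).trans ?_
    calc ∑ i ∈ s, (∑ k, MvPolynomial.C (L i (b k)) * MvPolynomial.X k : MvPolynomial (Fin (finrank F W)) F).totalDegree
        ≤ ∑ i ∈ s, 1 := by
          refine Finset.sum_le_sum fun i _ => ?_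
          refine (MvPolynomial.totalDegree_finsetSum _ _).trans ?_
          refine Finset.sup_le fun k _ => ?_
          refine (MvPolynomial.totalDegree_mul _ _).trans ?_
          rw [MvPolynomial.totalDegree_C, MvPolynomial.totalDegree_X]
      _ = s.card := by simp
  have := MvPolynomial.sum_eval_eq_zero P hdeg
  rw [← this]
  refine Fintype.sum_equiv b.equivFun.toEquiv _ _ fun w => ?_
  rw [hP]; simp

section part

variable {V : Type*} [AddCommGroup V] [Module F V] [Fintype V]

/-- the vectors not covered by the subspaces `A i`, `i ∈ s` -/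
noncomputable def holes {ι : Type*} (s : Finset ι) (A : ι → Submodule F V) : Finset V := by
  classical exact Finset.univ.filter fun v => v ≠ 0 ∧ ∀ i ∈ s, v ∉ A i

theorem mem_holes {ι : Type*} {s : Finset ι} {A : ι → Submodule F V} {v : V} :
    v ∈ holes s A ↔ v ≠ 0 ∧ ∀ i ∈ s, v ∉ A i := by
  classical
  simp [holes]

/-- Sums over the whole space split into sums over the members and the sum over the holes. -/
theorem part {ι : Type*} (s : Finset ι) (A : ι → Submodule F V)
    (hA : ∀ i ∈ s, ∀ j ∈ s, i ≠ j → A i ⊓ A j = ⊥) {M : Type*} [AddCommMonoid M] (g : V → M) (hg : g 0 = 0) :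
    ∑ v, g v = (∑ i ∈ s, ∑ v : A i, g v) + ∑ v ∈ holes s A, g v := by
  classical
  have h1 : ∀ i, ∑ v : A i, g v = ∑ v, if v ∈ A i then g v else 0 := by
    intro i
    rw [← Finset.sum_filter]
    exact (Finset.sum_subtype (Finset.univ.filter fun v => v ∈ A i) (by simp) g).symm
  have h2 : ∑ v ∈ holes s A, g v = ∑ v, if v ∈ holes s A then g v else 0 := by
    rw [← Finset.sum_filter]; simp
  simp_rw [h1]
  rw [Finset.sum_comm, h2, ← Finset.sum_add_distrib]
  refine Finset.sum_congr rfl fun v _ => ?_
  by_cases hv : v = 0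
  · subst hv; simp [hg]
  by_cases hh : v ∈ holes s A
  · rw [if_pos hh, Finset.sum_eq_zero, zero_add]
    intro i hi
    rw [if_neg ((mem_holes.1 hh).2 i hi)]
  · rw [if_neg hh, add_zero]
    have : ∃ i ∈ s, v ∈ A i := by
      by_contra hcon
      push Not at hcon
      exact hh (mem_holes.2 ⟨hv, hcon⟩)
    obtain ⟨i, hi, hvi⟩ := this
    rw [Finset.sum_eq_single_of_mem i hi, if_pos hvi]
    intro j hj hji
    rw [if_neg]
    intro hvj
    have : v ∈ A i ⊓ A j := ⟨hvi, hvj⟩
    rw [hA i hi j hj (Ne.symm hji)] at this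
    exact hv (by simpa using this)

/-- The product of `q - 1` linear functionals sums to zero over the holes. -/
theorem sum_holes [FiniteDimensional F V] {ι : Type*} (s : Finset ι) (A : ι → Submodule F V)
    (hA : ∀ i ∈ s, ∀ j ∈ s, i ≠ j → A i ⊓ A j = ⊥) (h2 : ∀ i ∈ s, finrank F (A i) = 2) (hV : 2 ≤ finrank F V)
    {κ : Type*} (t : Finset κ) (L : κ → Dual F V) (ht : t.card = Fintype.card F - 1) :
    ∑ v ∈ holes s A, ∏ k ∈ t, L k v = 0 := by
  classical
  have hq : 1 < Fintype.card F := Fintype.one_lt_card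
  have h0 : ∏ k ∈ t, L k (0 : V) = 0 := by
    have : t.Nonempty := by rw [← Finset.card_pos, ht]; omega
    obtain ⟨k, hk⟩ := this
    exact Finset.prod_eq_zero hk (map_zero _)
  have h1 := part s A hA (fun v => ∏ k ∈ t, L k v) h0
  have h3 : ∑ v : V, ∏ k ∈ t, L k v = 0 := by
    apply sum_prod_dual
    rw [ht]; nlinarith [Nat.sub_pos_of_lt hq]
  have h4 : ∑ i ∈ s, ∑ v : A i, ∏ k ∈ t, L k (v : V) = 0 := by
    refine Finset.sum_eq_zero fun i hi => ?_
    have := sum_prod_dual (W := A i) t (fun k => (L k).comp (A i).subtype) (by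
      rw [ht, h2 i hi]; omega)
    simpa using this
  rw [h3, h4, zero_add] at h1
  exact h1.symm

/-- Counting the holes in a subspace. -/
theorem card_holes_inter [FiniteDimensional F V] {ι : Type*} (s : Finset ι) (A : ι → Submodule F V)
    (hA : ∀ i ∈ s, ∀ j ∈ s, i ≠ j → A i ⊓ A j = ⊥) (N : Submodule F V) :
    (((holes s A).filter (· ∈ N)).card : ℤ) =
      (Fintype.card F : ℤ) ^ finrank F N - 1 - ∑ i ∈ s, ((Fintype.card F : ℤ) ^ finrank F (A i ⊓ N : Submodule F V) - 1) := by
  classical
  have hcard : ∀ M : Submodule F V, (∑ v : V, if v ≠ 0 ∧ v ∈ M then (1 : ℤ) else 0) = (Fintype.card F : ℤ) ^ finrank F M - 1 := by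
    intro M
    have h1 : (Fintype.card M : ℤ) = (Fintype.card F : ℤ) ^ finrank F M := by
      rw [Module.card_eq_pow_finrank (K := F) (V := M)]; push_cast; rfl
    rw [← h1]
    have h2 : (∑ v : V, if v ≠ 0 ∧ v ∈ M then (1 : ℤ) else 0) + 1 = ∑ v : V, if v ∈ M then (1 : ℤ) else 0 := by
      have : ∀ v : V, (if v ∈ M then (1 : ℤ) else 0) = (if v ≠ 0 ∧ v ∈ M then (1 : ℤ) else 0) + if v = 0 then 1 else 0 := by
        intro v
        by_cases hv : v = 0
        · subst hv; simp
        · simp [hv]
      simp_rw [this]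
      rw [Finset.sum_add_distrib]; simp
    have h3 : (∑ v : V, if v ∈ M then (1 : ℤ) else 0) = Fintype.card M := by
      rw [Finset.sum_boole, Fintype.card_subtype]
    rw [← h3, ← h2]; ring
  have h1 := part s A hA (fun v => if v ≠ 0 ∧ v ∈ N then (1 : ℤ) else 0) (by simp)
  rw [hcard] at h1
  have h2 : ∀ i ∈ s, (∑ v : A i, if (v : V) ≠ 0 ∧ (v : V) ∈ N then (1 : ℤ) else 0) =
      (Fintype.card F : ℤ) ^ finrank F (A i ⊓ N : Submodule F V) - 1 := by
    intro i _
    rw [← hcard]
    rw [← Finset.sum_subtype (Finset.univ.filter fun v => v ∈ A i) (by simp) (fun v : V => if v ≠ 0 ∧ v ∈ N then (1 : ℤ) else 0),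
      Finset.sum_filter]
    refine Finset.sum_congr rfl fun v _ => ?_
    by_cases hv : v ∈ A i
    · simp [hv, Submodule.mem_inf]
    · simp [hv, Submodule.mem_inf]
  rw [Finset.sum_congr rfl h2] at h1
  have h3 : (((holes s A).filter (· ∈ N)).card : ℤ) = ∑ v ∈ holes s A, if v ≠ 0 ∧ v ∈ N then (1 : ℤ) else 0 := by
    rw [Finset.card_eq_sum_ones, Finset.sum_filter]
    push_cast
    refine Finset.sum_congr rfl fun v hv => ?_
    have := (mem_holes.1 hv).1
    simp [this]
  rw [h3, h1]; ring

end part

end H8.PS
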