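import Pool.Agent.H97.PS.NoLong

/-!
MP_325208 (helper8): if `q ≤ (q - d) ^ 2` then every line has at most `2 d + 1 - q` holes.
-/

set_option autoImplicit false
set_option linter.unusedSectionVars false

open Configuration Finset H8.PS Pool.Agent.H97.PS
open scoped Classical

namespace H8.PS.LineSq

variable {P L : Type*} [Fintype P] [Fintype L] [Membership P L] [ProjectivePlane P L]

/-- contact points of tangents through a point of `t` outside `B` are not on `t` -/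
theorem off_t {B : Finset P} {t : L} (ht2 : 2 ≤ (on B t).card) {Q a : P} (hQ : Q ∈ t) (ha : a ∈ T L B Q) : a ∉ t := by
  intro hat
  obtain ⟨x, hx, y, hy, hxy⟩ := Finset.one_lt_card.1 (show 1 < (on B t).card by omega)
  rw [on, Finset.mem_filter] at hx hy
  have e1 := (mem_T.1 ha).2 t hQ hat x hx.1 hx.2
  have e2 := (mem_T.1 ha).2 t hQ hat y hy.1 hy.2
  exact hxy (e1.trans e2.symm)

/-- a point with many collinear tangent holes off `t` -/
theorem exists_Z {B : Finset P} {q d m : ℕ} (h : PlaneData P L q d B) (hdm : d + m = q) {t : L}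
    (ht : q + 2 ≤ (on B t).card + 2 * m) (ht2 : 2 ≤ (on B t).card) {P₁ P₂ a₁ a₂ : P} (h1 : P₁ ∈ t) (h2 : P₂ ∈ t)
    (h1B : P₁ ∉ B) (h2B : P₂ ∉ B) (h12 : P₁ ≠ P₂) (ha1 : a₁ ∈ T L B P₁) (ha2 : a₂ ∈ T L B P₂) (ha : a₁ ≠ a₂) :
    ∃ Z : P, Z ∉ t ∧ Z ∉ B ∧ m + 1 ≤ ((T L B Z).filter (· ∉ t)).card ∧ ∃ l : L, ∀ X ∈ T L B Z, X ∉ t → X ∈ l := by
  have ha1t := off_t ht2 h1 ha1
  have ha2t := off_t ht2 h2 ha2
  have ha1B := (mem_T.1 ha1).1
  have ha2B := (mem_T.1 ha2).1
  have n1 : P₁ ≠ a₁ := fun he => h1B (he ▸ ha1B)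
  have n2 : P₂ ≠ a₂ := fun he => h2B (he ▸ ha2B)
  obtain ⟨l₁, hl1P, hl1a⟩ : ∃ l : L, P₁ ∈ l ∧ a₁ ∈ l := ⟨_, HasLines.mkLine_ax n1⟩
  obtain ⟨l₂, hl2P, hl2a⟩ : ∃ l : L, P₂ ∈ l ∧ a₂ ∈ l := ⟨_, HasLines.mkLine_ax n2⟩
  have hl1t : l₁ ≠ t := fun he => ha1t (he ▸ hl1a)
  have hl2t : l₂ ≠ t := fun he => ha2t (he ▸ hl2a)
  have hl12 : l₁ ≠ l₂ := by
    rintro rfl
    rcases Nondegenerate.eq_or_eq hl1P hl2P h1 h2 with e | e
    · exact h12 e
    · exact hl1t e
  obtain ⟨Z, hZ1, hZ2⟩ : ∃ Z : P, Z ∈ l₁ ∧ Z ∈ l₂ := ⟨_, HasPoints.mkPoint_ax hl12⟩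
  have hZt : Z ∉ t := by
    intro hZ
    have e1 : Z = P₁ := by
      rcases Nondegenerate.eq_or_eq hZ1 hl1P hZ h1 with e | e
      · exact e
      · exact absurd e hl1t
    have e2 : Z = P₂ := by
      rcases Nondegenerate.eq_or_eq hZ2 hl2P hZ h2 with e | e
      · exact e
      · exact absurd e hl2t
    exact h12 (e1.symm.trans e2)
  have hZB : Z ∉ B := by
    intro hZ
    have e1 := (mem_T.1 ha1).2 l₁ hl1P hl1a Z hZ hZ1
    have e2 := (mem_T.1 ha2).2 l₂ hl2P hl2a Z hZ hZ2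
    exact ha (e1.symm.trans e2)
  have key : ∀ {Q a : P} {l' : L}, a ∈ T L B Q → Q ∈ l' → a ∈ l' → Z ∈ l' → a ∈ T L B Z := by
    intro Q a l' ha' hQ hal hZl
    have haB := (mem_T.1 ha').1
    refine mem_T.2 ⟨haB, fun k hk hak Y hY hYk => ?_⟩
    have hkl : k = l' := by
      rcases Nondegenerate.eq_or_eq hk hak hZl hal with e | e
      · exact absurd (e ▸ haB) hZB
      · exact e
    exact (mem_T.1 ha').2 l' hQ hal Y hY (hkl ▸ hYk)
  have c1 : a₁ ∈ (T L B Z).filter fun X => X ∉ t := Finset.mem_filter.2 ⟨key ha1 hl1P hl1a hZ1, ha1t⟩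
  have hle := T_off_le' h hZt hZB
  have hqd : q - d = m := by omega
  have hge := h.cb1 Z hZB t ⟨a₁, c1⟩
  obtain ⟨l, hl⟩ := h.cb3 Z hZB t (by rw [hqd]; omega)
  rw [hqd] at hge
  exact ⟨Z, hZt, hZB, hge, l, hl⟩

/-- the tangent holes of `Z` off `t` are contact points for different points of `t` outside `B` -/
theorem exists_f {B : Finset P} {t : L} {Z : P} (hZt : Z ∉ t) (hZ : Z ∉ B) :
    ∃ f : P → P, (∀ X ∈ (T L B Z).filter (· ∉ t), f X ∈ t ∧ f X ∉ B ∧ X ∈ T L B (f X)) ∧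
      Set.InjOn f ((T L B Z).filter (· ∉ t)) := by
  have hex : ∀ X : P, ∃ l : L, ∃ Y : P, X ∈ (T L B Z).filter (· ∉ t) → Z ∈ l ∧ X ∈ l ∧ Y ∈ l ∧ Y ∈ t := by
    intro X
    by_cases hX : X ∈ (T L B Z).filter (· ∉ t)
    · have hX' := (Finset.mem_filter.1 hX)
      have hXZ : X ≠ Z := fun he => hZ (he ▸ (mem_T.1 hX'.1).1)
      obtain ⟨l, hl1, hl2⟩ : ∃ l : L, X ∈ l ∧ Z ∈ l := ⟨_, HasLines.mkLine_ax hXZ⟩
      have hlt : l ≠ t := fun he => hZt (he ▸ hl2)
      obtain ⟨Y, hY1, hY2⟩ : ∃ Y : P, Y ∈ l ∧ Y ∈ t := ⟨_, HasPoints.mkPoint_ax hlt⟩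
      exact ⟨l, Y, fun _ => ⟨hl2, hl1, hY1, hY2⟩⟩
    · obtain ⟨_, _, _, l, _⟩ := @ProjectivePlane.exists_config P L _ _
      exact ⟨l, X, fun h => absurd h hX⟩
  choose ln f hf using hex
  have hfB : ∀ X ∈ (T L B Z).filter (· ∉ t), f X ∉ B := by
    intro X hX hB
    obtain ⟨e1, e2, e3, e4⟩ := hf X hX
    rw [Finset.mem_filter] at hX
    have := (mem_T.1 hX.1).2 (ln X) e1 e2 (f X) hB e3
    exact hX.2 (this ▸ e4)
  refine ⟨f, fun X hX => ⟨(hf X hX).2.2.2, hfB X hX, ?_⟩, ?_⟩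
  · obtain ⟨e1, e2, e3, e4⟩ := hf X hX
    have hX' := (Finset.mem_filter.1 hX)
    refine mem_T.2 ⟨(mem_T.1 hX'.1).1, fun k hk hXk Y hY hYk => ?_⟩
    have hkl : k = ln X := by
      rcases Nondegenerate.eq_or_eq hk hXk e3 e2 with e | e
      · exact absurd (mem_T.1 hX'.1).1 (e ▸ hfB X hX)
      · exact e
    exact (mem_T.1 hX'.1).2 (ln X) e1 e2 Y hY (hkl ▸ hYk)
  · intro X hX Y hY hXY
    rw [Finset.mem_coe] at hX hY
    obtain ⟨e1, e2, e3, e4⟩ := hf X hX
    obtain ⟨g1, g2, g3, g4⟩ := hf Y hY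
    have hX' := (Finset.mem_filter.1 hX)
    have hY' := (Finset.mem_filter.1 hY)
    have hfZ : f X ≠ Z := fun he => hZt (he ▸ e4)
    have hl : ln X = ln Y := by
      rcases Nondegenerate.eq_or_eq e3 e1 (by rw [hXY]; exact g3) g1 with h1 | h1
      · exact absurd h1 hfZ
      · exact h1
    exact ((mem_T.1 hX'.1).2 (ln X) e1 e2 Y (mem_T.1 hY'.1).1 (by rw [hl]; exact g2)).symm

/-- lines through one point -/
theorem count_through {A K : Finset P} {m : ℕ} {c : P} (hc : c ∈ A) {l : L} (hcl : c ∉ l) (hK : ∀ X ∈ K, X ∈ l)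
    (hln : ∀ X ∈ K, ∃ k : L, X ∈ k ∧ c ∈ k ∧ m + 1 ≤ (A.filter (· ∈ k)).card) : K.card * m + 1 ≤ A.card := by
  have hex : ∀ X : P, ∃ k : L, X ∈ K → X ∈ k ∧ c ∈ k ∧ m + 1 ≤ (A.filter (· ∈ k)).card := by
    intro X
    by_cases hX : X ∈ K
    · obtain ⟨k, hk⟩ := hln X hX
      exact ⟨k, fun _ => hk⟩
    · exact ⟨l, fun h => absurd h hX⟩
  choose k hk using hex
  have h1 : (K.biUnion fun X => (A.erase c).filter (· ∈ k X)).card = ∑ X ∈ K, ((A.erase c).filter (· ∈ k X)).card := by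
    refine Finset.card_biUnion fun X hX Y hY hXY => ?_
    refine Finset.disjoint_left.2 fun a ha hb => ?_
    rw [Finset.mem_filter, Finset.mem_erase] at ha hb
    have hkk : k X = k Y := by
      rcases Nondegenerate.eq_or_eq ha.2 (hk X hX).2.1 hb.2 (hk Y hY).2.1 with e | e
      · exact absurd e ha.1.1
      · exact e
    rcases Nondegenerate.eq_or_eq (hk X hX).1 (hkk ▸ (hk Y hY).1) (hK X hX) (hK Y hY) with e | e
    · exact hXY e
    · exact hcl (e ▸ (hk X hX).2.1)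
  have h2 : K.card * m ≤ ∑ X ∈ K, ((A.erase c).filter (· ∈ k X)).card := by
    rw [← smul_eq_mul, ← Finset.sum_const]
    refine Finset.sum_le_sum fun X hX => ?_
    have h3 := (hk X hX).2.2
    have h4 : A.filter (· ∈ k X) ⊆ insert c ((A.erase c).filter (· ∈ k X)) := by
      intro a ha
      rw [Finset.mem_filter] at ha
      rw [Finset.mem_insert, Finset.mem_filter, Finset.mem_erase]
      by_cases hac : a = c
      · exact Or.inl hac
      · exact Or.inr ⟨⟨hac, ha.1⟩, ha.2⟩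
    have h5 := (Finset.card_le_card h4).trans (Finset.card_insert_le _ _)
    omega
  have h3 : (K.biUnion fun X => (A.erase c).filter (· ∈ k X)).card ≤ (A.erase c).card := by
    refine Finset.card_le_card fun a ha => ?_
    rw [Finset.mem_biUnion] at ha
    obtain ⟨X, -, hX⟩ := ha
    exact (Finset.mem_filter.1 hX).1
  rw [Finset.card_erase_of_mem hc] at h3
  have h4 := Finset.card_pos.2 ⟨c, hc⟩
  omega

/-- **Few holes on a line.** -/
theorem few_on {B : Finset P} {q d m : ℕ} (h : PlaneData P L q d B) (hdm : d + m = q)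
    (hm : 2 * m ≤ q) (hsq : q ≤ m * m) (t : L) : (on B t).card + 2 * m ≤ q + 1 := by
  by_contra hcon
  have ht : q + 2 ≤ (on B t).card + 2 * m := by omega
  have ht2 : 2 ≤ (on B t).card := by omega
  have hd' := h.le t
  have hBc := h.card
  -- the points of `t` outside `B`
  set N := (Finset.univ.filter fun p : P => p ∈ t) \ on B t with hN
  have hsplit : (on B t).card + N.card = q + 1 := by
    have hsub : on B t ⊆ Finset.univ.filter fun p : P => p ∈ t := by
      intro p hp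
      rw [on, Finset.mem_filter] at hp
      simpa using hp.2
    have h0 := Pool.Agent.H27.PS.Cnt.card_on (P := P) t
    rw [h.order] at h0
    rw [hN, Finset.card_sdiff_of_subset hsub, h0]
    have := Finset.card_le_card hsub
    omega
  have hmem : ∀ p : P, p ∈ N ↔ p ∈ t ∧ p ∉ B := by
    intro p
    rw [hN, Finset.mem_sdiff, Finset.mem_filter, on, Finset.mem_filter]
    constructor
    · rintro ⟨⟨-, e1⟩, e2⟩
      exact ⟨e1, fun hB => e2 ⟨hB, e1⟩⟩
    · rintro ⟨e1, e2⟩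
      exact ⟨⟨Finset.mem_univ _, e1⟩, fun h => e2 h.1⟩
  obtain ⟨P₁, hP₁, P₂, hP₂, h12⟩ := Finset.one_lt_card.1 (show 1 < N.card by omega)
  obtain ⟨h1, h1B⟩ := (hmem P₁).1 hP₁
  obtain ⟨h2, h2B⟩ := (hmem P₂).1 hP₂
  have hT1 := T_ge' h hdm ht2 h1 h1B
  have hT2 := T_ge' h hdm ht2 h2 h2B
  obtain ⟨a₁, ha1⟩ := Finset.card_pos.1 (show 0 < (T L B P₁).card by omega)
  obtain ⟨a₂, ha2⟩ : ((T L B P₂).erase a₁).Nonempty := by
    rw [← Finset.card_pos]
    have := Finset.pred_card_le_card_erase (s := T L B P₂) (a := a₁)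
    omega
  rw [Finset.mem_erase] at ha2
  obtain ⟨Z, hZt, hZB, hk, l, hl⟩ := exists_Z h hdm ht ht2 h1 h2 h1B h2B h12 ha1 ha2.2 (Ne.symm ha2.1)
  obtain ⟨f, hf, hinj⟩ := exists_f hZt hZB
  set K := (T L B Z).filter (· ∉ t) with hK
  set A := B.filter (· ∉ t) with hA
  have hAcard : (on B t).card + A.card = B.card := by
    rw [on, hA]
    exact Finset.card_filter_add_card_filter_not _
  have hKN : K.card ≤ N.card := Finset.card_le_card_of_injOn f
    (fun X hX => Finset.mem_coe.2 ((hmem _).2 ⟨(hf X hX).1, (hf X hX).2.1⟩)) hinj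
  -- the count for a point of `t` outside `B`
  have hcount : ∀ Y ∈ N, (K.filter fun X => f X ≠ Y).card * m + 1 ≤ A.card := by
    intro Y hY
    obtain ⟨hYt, hYB⟩ := (hmem Y).1 hY
    have hTY := T_ge' h hdm ht2 hYt hYB
    obtain ⟨c, hc, hcl⟩ : ∃ c ∈ T L B Y, c ∉ l := by
      by_contra hall
      push Not at hall
      have hsub : T L B Y ⊆ on B l := by
        intro x hx
        rw [on, Finset.mem_filter]
        exact ⟨T_subset B Y hx, hall x hx⟩
      have h3 := Finset.card_le_card hsub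
      have h4 := h.le l
      omega
    have hcA : c ∈ A := Finset.mem_filter.2 ⟨T_subset B Y hc, off_t ht2 hYt hc⟩
    refine count_through hcA hcl (K := K.filter fun X => f X ≠ Y) (fun X hX => ?_) (fun X hX => ?_)
    · rw [Finset.mem_filter, hK, Finset.mem_filter] at hX
      exact hl X hX.1.1 hX.1.2
    · rw [Finset.mem_filter] at hX
      obtain ⟨e1, e2, e3⟩ := hf X hX.1
      have hXl : X ∈ l := by
        have h5 := hX.1
        rw [hK, Finset.mem_filter] at h5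
        exact hl X h5.1 h5.2
      exact long_of_pair' h hdm ht ht2 e1 hYt e2 hYB hX.2 e3 hc (fun he => hcl (he ▸ hXl))
  rcases Nat.lt_or_ge K.card N.card with hlt | hge
  · -- a point of `N` which is not a value of `f`
    obtain ⟨Y, hY, hYf⟩ : ∃ Y ∈ N, Y ∉ K.image f := by
      by_contra hall
      push Not at hall
      have h3 := Finset.card_le_card (show N ⊆ K.image f from hall)
      have h4 := Finset.card_image_le (s := K) (f := f)
      omega
    have h3 := hcount Y hY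
    have h4 : (K.filter fun X => f X ≠ Y) = K := by
      refine Finset.filter_true_of_mem fun X hX he => hYf ?_
      exact Finset.mem_image.2 ⟨X, hX, he⟩
    rw [h4] at h3
    have h5 : (m + 1) * m ≤ K.card * m := Nat.mul_le_mul_right _ hk
    have h6 : (m + 1) * m = m * m + m := by ring
    omega
  · have h3 := hcount P₁ hP₁
    have h4 : K.card ≤ (K.filter fun X => f X ≠ P₁).card + 1 := by
      have h5 := Finset.card_filter_add_card_filter_not (s := K) (fun X => f X ≠ P₁)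
      have h6 : (K.filter fun X => ¬ f X ≠ P₁).card ≤ 1 := by
        rw [Finset.card_le_one]
        intro X hX Y hY
        rw [Finset.mem_filter, not_not] at hX hY
        exact hinj (Finset.mem_coe.2 hX.1) (Finset.mem_coe.2 hY.1) (hX.2.trans hY.2.symm)
      omega
    have hm1 : 1 ≤ m := by
      rcases Nat.eq_zero_or_pos m with h0 | h0
      · subst h0; omega
      · exact h0
    obtain ⟨r, hr⟩ : ∃ r, r + (on B t).card = q := ⟨q - (on B t).card, by omega⟩
    have h5 : r * m ≤ (K.filter fun X => f X ≠ P₁).card * m := Nat.mul_le_mul_right _ (by omega)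
    obtain ⟨s, rfl⟩ : ∃ s, m = s + 1 := ⟨m - 1, by omega⟩
    have h6 : r * (s + 1) = r * s + r := by ring
    have h7 : (s + 1) * s ≤ r * s := Nat.mul_le_mul_right _ (by omega)
    have h8 : (s + 1) * (s + 1) = (s + 1) * s + (s + 1) := by ring
    omega

end H8.PS.LineSq
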