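import Pool.Agent.H8.PS.Count

/-!
MP_325208 (helper8): a maximal partial spread of the projective space of dimension three over a field with `q` elements that
is not a spread has at most `q ^ 2 - q / 2` members.
-/

set_option autoImplicit false

open Module Finset
open scoped Classical

namespace H8.PS

variable {F : Type*} [Field F] [Fintype F]

section cone

variable {V : Type*} [AddCommGroup V] [Module F V] [Fintype V]

theorem cone_ge {T : Finset V} (hne : ∀ v ∈ T, v ≠ 0) (hc : ∀ v ∈ T, ∀ c : F, c ≠ 0 → c • v ∈ T) {v : V} (hv : v ∈ T) :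
    Fintype.card F - 1 ≤ T.card := by
  rw [← card_ray (F := F) (hne v hv)]
  exact Finset.card_le_card (ray_subset hc hv)

theorem ray_disjoint {u v : V} (huv : u ∉ Submodule.span F {v}) : Disjoint (ray F v) (ray F u) := by
  rw [Finset.disjoint_left]
  intro y hy hy2
  obtain ⟨c, hc, rfl⟩ := mem_ray.1 hy
  obtain ⟨d, hd, hd2⟩ := mem_ray.1 hy2
  apply huv
  rw [Submodule.mem_span_singleton]
  exact ⟨d⁻¹ * c, by rw [mul_smul, ← hd2, smul_smul, inv_mul_cancel₀ hd, one_smul]⟩

theorem cone_ge_two {T : Finset V} (hne : ∀ v ∈ T, v ≠ 0) (hc : ∀ v ∈ T, ∀ c : F, c ≠ 0 → c • v ∈ T) {u v : V} (hu : u ∈ T)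
    (hv : v ∈ T) (huv : u ∉ Submodule.span F {v}) : 2 * (Fintype.card F - 1) ≤ T.card := by
  have hc1 : (ray F v ∪ ray F u).card = 2 * (Fintype.card F - 1) := by
    rw [Finset.card_union_of_disjoint (ray_disjoint huv), card_ray (hne v hv), card_ray (hne u hu)]; ring
  rw [← hc1]
  exact Finset.card_le_card (Finset.union_subset (ray_subset hc hv) (ray_subset hc hu))

theorem card_le_of_span {T : Finset V} (hne : ∀ v ∈ T, v ≠ 0) {v : V} (hv : v ≠ 0) (h : ∀ x ∈ T, x ∈ Submodule.span F {v}) :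
    T.card ≤ Fintype.card F - 1 := by
  rw [← card_ray (F := F) hv]
  refine Finset.card_le_card fun x hx => ?_
  obtain ⟨c, rfl⟩ := Submodule.mem_span_singleton.1 (h x hx)
  refine mem_ray.2 ⟨c, ?_, rfl⟩
  rintro rfl
  exact hne _ hx (zero_smul _ _)

end cone

variable {V : Type*} [AddCommGroup V] [Module F V] [Fintype V] [FiniteDimensional F V]

theorem mem_ann_pair {a b : V} {θ : Dual F V} :
    θ ∈ (Submodule.span F {a, b}).dualAnnihilator ↔ θ a = 0 ∧ θ b = 0 := by
  rw [Submodule.mem_dualAnnihilator]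
  constructor
  · intro h
    exact ⟨h a (Submodule.subset_span (by simp)), h b (Submodule.subset_span (by simp))⟩
  · rintro ⟨h1, h2⟩ w hw
    obtain ⟨x, y, rfl⟩ := Submodule.mem_span_pair.1 hw
    simp [h1, h2]

/-- the functionals through `Z`, normalized at `E`, that vanish on no member -/
noncomputable def DD (S : Finset (Submodule F V)) (Z E : V) : Finset (Dual F V) :=
  Finset.univ.filter fun θ => θ ∈ holes S (fun W => W.dualAnnihilator) ∧ θ Z = 0 ∧ θ E = 1

theorem mem_DD {S : Finset (Submodule F V)} {Z E : V} {θ : Dual F V} :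
    θ ∈ DD S Z E ↔ θ ∈ holes S (fun W => W.dualAnnihilator) ∧ θ Z = 0 ∧ θ E = 1 := by
  simp [DD]

theorem card_DD {S : Finset (Submodule F V)} (hV : finrank F V = 4)
    (hd : ∀ W ∈ S, ∀ W' ∈ S, W ≠ W' → W ⊓ W' = ⊥) (h2 : ∀ W ∈ S, finrank F W = 2)
    {Z E : V} {W₀ : Submodule F V} (hW₀ : W₀ ∈ S) (hZ : Z ∈ W₀) (hZ0 : Z ≠ 0) :
    ((DD S Z E).card : ℤ) ≤ (Fintype.card F : ℤ) ^ 2 + 1 - S.card := by
  have hq : 1 < Fintype.card F := Fintype.one_lt_card
  have hN1 : finrank F (Submodule.span F {Z}) = 1 := finrank_span_singleton hZ0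
  have hN : finrank F (Submodule.span F {Z}).dualAnnihilator = 3 := dual_finrank hV hN1
  have hV' : finrank F (Dual F V) = 4 := by rw [Subspace.dual_finrank_eq, hV]
  have h1 := holes_hyperplane_poor hV'
    (fun W hW W' hW' h => dual_disjoint hV (hd W hW W' hW' h) (h2 W hW) (h2 W' hW'))
    (fun W hW => dual_finrank hV (h2 W hW)) (Submodule.span F {Z}).dualAnnihilator hN hW₀
    (Submodule.dualAnnihilator_anti (by rw [Submodule.span_le]; simpa using hZ))
  have h3 : (DD S Z E).card * (Fintype.card F - 1) ≤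
      ((holes S fun W => W.dualAnnihilator).filter (· ∈ (Submodule.span F {Z}).dualAnnihilator)).card := by
    rw [← card_ne_zero_filter, ← Finset.card_product]
    refine Finset.card_le_card_of_injOn (fun x => x.2 • x.1) ?_ ?_
    · rintro ⟨θ, c⟩ hx
      simp only [Finset.coe_product, Set.mem_prod, Finset.mem_coe, Finset.mem_filter, Finset.mem_univ, true_and, mem_DD] at hx
      obtain ⟨⟨h4, h5, h6⟩, h7⟩ := hx
      simp only [Finset.coe_filter, Set.mem_setOf_eq]
      refine ⟨smul_mem_holes h4 h7, ?_⟩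
      rw [Submodule.mem_dualAnnihilator]
      intro w hw
      obtain ⟨x, rfl⟩ := Submodule.mem_span_singleton.1 hw
      simp [h5]
    · rintro ⟨θ, c⟩ hx ⟨θ', c'⟩ hx' heq
      simp only [Finset.coe_product, Set.mem_prod, Finset.mem_coe, Finset.mem_filter, Finset.mem_univ, true_and, mem_DD] at hx hx'
      simp only at heq
      have h8 : c = c' := by
        have := congrArg (fun f : Dual F V => f E) heq
        simpa [hx.1.2.2, hx'.1.2.2] using this
      subst h8
      have h9 : θ = θ' := smul_right_injective (Dual F V) hx.2 heq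
      rw [h9]
  have h4 : ((DD S Z E).card : ℤ) * ((Fintype.card F : ℤ) - 1) ≤
      ((holes S fun W => W.dualAnnihilator).filter (· ∈ (Submodule.span F {Z}).dualAnnihilator)).card := by
    have := h3
    have h5 : ((Fintype.card F - 1 : ℕ) : ℤ) = (Fintype.card F : ℤ) - 1 := by push_cast [hq.le]; ring
    rw [← h5]
    exact_mod_cast this
  have h6 := h4.trans h1
  have hq' : (0 : ℤ) < (Fintype.card F : ℤ) - 1 := by
    have : (1 : ℤ) < Fintype.card F := by exact_mod_cast hq
    linarith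
  rw [mul_comm] at h6
  exact le_of_mul_le_mul_left h6 hq'

/-- Maximal partial spreads: a plane containing a hole contains a covered vector. -/
theorem exists_covered {S : Finset (Submodule F V)}
    (hmax : ∀ U : Submodule F V, finrank F U = 2 → U ∉ S → ∃ W ∈ S, U ⊓ W ≠ ⊥)
    {U : Submodule F V} (hU : finrank F U = 2) {v : V} (hv : v ∈ holes S fun W => W) (hvU : v ∈ U) :
    ∃ W ∈ S, ∃ Z ∈ U, Z ≠ 0 ∧ Z ∈ W := by
  have hUS : U ∉ S := fun h => (mem_holes.1 hv).2 U h hvU
  obtain ⟨W, hW, hne⟩ := hmax U hU hUS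
  obtain ⟨Z, hZ, hZ0⟩ := Submodule.exists_mem_ne_zero_of_ne_bot hne
  exact ⟨W, hW, Z, hZ.1, hZ0, hZ.2⟩

/-- Any plane with a hole has at most `(q - 1) d` holes. -/
theorem holes_plane {S : Finset (Submodule F V)} (hV : finrank F V = 4)
    (hd : ∀ W ∈ S, ∀ W' ∈ S, W ≠ W' → W ⊓ W' = ⊥) (h2 : ∀ W ∈ S, finrank F W = 2)
    (hmax : ∀ U : Submodule F V, finrank F U = 2 → U ∉ S → ∃ W ∈ S, U ⊓ W ≠ ⊥)
    {U : Submodule F V} (hU : finrank F U = 2) {v : V} (hv : v ∈ holes S fun W => W) (hvU : v ∈ U)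
    {R : Finset V} (hR : R ⊆ holes S fun W => W) (hRU : ∀ x ∈ R, x ∈ U) :
    (R.card : ℤ) ≤ ((Fintype.card F : ℤ) - 1) * ((Fintype.card F : ℤ) ^ 2 + 1 - S.card) := by
  have hUS : U ∉ S := fun h => (mem_holes.1 hv).2 U h hvU
  obtain ⟨W, hW, hne⟩ := hmax U hU hUS
  have h1 := Submodule.finrank_sup_add_finrank_inf_eq U W
  have h3 : finrank F (U ⊓ W : Submodule F V) ≠ 0 := by
    rw [ne_eq, Submodule.finrank_eq_zero]; exact hne
  rw [hU, h2 W hW] at h1
  have h4 : U ⊔ W < ⊤ := by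
    rw [lt_top_iff_ne_top]
    intro h
    rw [h, finrank_top, hV] at h1
    omega
  obtain ⟨f, hf, hle⟩ := Submodule.exists_le_ker_of_lt_top _ h4
  have h5 : finrank F (LinearMap.ker f) = 3 := by
    have := Module.Dual.finrank_ker_add_one_of_ne_zero (K := F) (f := f) hf
    omega
  have h6 := holes_hyperplane_poor hV hd h2 (LinearMap.ker f) h5 hW (le_sup_right.trans hle)
  refine le_trans ?_ h6
  have : R ⊆ (holes S fun W => W).filter (· ∈ LinearMap.ker f) := by
    intro x hx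
    rw [Finset.mem_filter]
    exact ⟨hR hx, (le_sup_left.trans hle) (hRU x hx)⟩
  exact_mod_cast Finset.card_le_card this

/-- The configuration used in the proof: a covered vector `Z` and a second vector `E` of its member. -/
structure Conf (S : Finset (Submodule F V)) (Z E : V) : Prop where
  hV : finrank F V = 4
  hd : ∀ W ∈ S, ∀ W' ∈ S, W ≠ W' → W ⊓ W' = ⊥
  h2 : ∀ W ∈ S, finrank F W = 2
  hZ0 : Z ≠ 0
  ex : ∃ W ∈ S, Z ∈ W ∧ E ∈ W
  hE : E ∉ Submodule.span F {Z}

namespace Conf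

variable {S : Finset (Submodule F V)} {Z E : V} (C : Conf (F := F) S Z E)
include C

theorem E_ne {θ : Dual F V} (hθ : θ ∈ holes S fun W => W.dualAnnihilator) (hZ : θ Z = 0) : θ E ≠ 0 := by
  intro hE
  obtain ⟨W, hW, hZW, hEW⟩ := C.ex
  apply (mem_holes.1 hθ).2 W hW
  have h1 : Submodule.span F {Z, E} ≤ W := by
    rw [Submodule.span_le]
    rintro x (rfl | hx)
    · exact hZW
    · rw [Set.mem_singleton_iff] at hx; subst hx; exact hEW
  have h3 : Submodule.span F {Z, E} = W := by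
    refine Submodule.eq_of_le_of_finrank_le h1 ?_
    rw [finrank_span_pair C.hZ0 C.hE, C.h2 W hW]
  rw [← h3]
  exact mem_ann_pair.2 ⟨hZ, hE⟩

theorem norm {θ : Dual F V} (hθ : θ ∈ holes S fun W => W.dualAnnihilator) (hZ : θ Z = 0) : (θ E)⁻¹ • θ ∈ DD S Z E := by
  have h := C.E_ne hθ hZ
  refine mem_DD.2 ⟨smul_mem_holes hθ (inv_ne_zero h), by simp [hZ], ?_⟩
  rw [LinearMap.smul_apply, smul_eq_mul, inv_mul_cancel₀ h]

theorem not_span {v : V} (hv : v ∈ holes S fun W => W) : v ∉ Submodule.span F {Z} := by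
  intro h
  obtain ⟨W, hW, hZW, -⟩ := C.ex
  obtain ⟨c, rfl⟩ := Submodule.mem_span_singleton.1 h
  exact (mem_holes.1 hv).2 W hW (W.smul_mem c hZW)

theorem finrank_line {v : V} (hv : v ∈ holes S fun W => W) : finrank F (Submodule.span F {Z, v}) = 2 :=
  finrank_span_pair C.hZ0 (C.not_span hv)

theorem exists_D {v : V} (hv : v ∈ holes S fun W => W) : ∃ θ ∈ DD S Z E, θ v = 0 := by
  have h1 := duality C.hV C.hd C.h2 (C.finrank_line hv)
  have h2 : 0 < ((holes S fun W => W).filter (· ∈ Submodule.span F {Z, v})).card := by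
    refine Finset.card_pos.2 ⟨v, ?_⟩
    rw [Finset.mem_filter]
    exact ⟨hv, Submodule.subset_span (by simp)⟩
  rw [h1] at h2
  obtain ⟨θ, hθ⟩ := Finset.card_pos.1 h2
  rw [Finset.mem_filter, mem_ann_pair] at hθ
  exact ⟨_, C.norm hθ.1 hθ.2.1, by simp [hθ.2.2]⟩

theorem cone1 (N : Submodule F V) : (∀ v ∈ (holes S fun W => W).filter (· ∈ N), v ≠ 0) ∧
    (∀ v ∈ (holes S fun W => W).filter (· ∈ N), ∀ c : F, c ≠ 0 → c • v ∈ (holes S fun W => W).filter (· ∈ N)) := by
  refine ⟨fun v hv => (mem_holes.1 (Finset.mem_filter.1 hv).1).1, fun v hv c hc => ?_⟩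
  rw [Finset.mem_filter] at hv ⊢
  exact ⟨smul_mem_holes hv.1 hc, N.smul_mem c hv.2⟩

theorem cone2 (N : Submodule F (Dual F V)) : (∀ v ∈ (holes S fun W => W.dualAnnihilator).filter (· ∈ N), v ≠ 0) ∧
    (∀ v ∈ (holes S fun W => W.dualAnnihilator).filter (· ∈ N), ∀ c : F, c ≠ 0 →
      c • v ∈ (holes S fun W => W.dualAnnihilator).filter (· ∈ N)) := by
  refine ⟨fun v hv => (mem_holes.1 (Finset.mem_filter.1 hv).1).1, fun v hv c hc => ?_⟩
  rw [Finset.mem_filter] at hv ⊢
  exact ⟨smul_mem_holes hv.1 hc, N.smul_mem c hv.2⟩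

theorem eq_of_span {θ θ' : Dual F V} (h : θ ∈ DD S Z E) (h' : θ' ∈ DD S Z E) (hs : θ' ∈ Submodule.span F {θ}) : θ' = θ := by
  obtain ⟨c, rfl⟩ := Submodule.mem_span_singleton.1 hs
  have h1 := (mem_DD.1 h').2.2
  rw [LinearMap.smul_apply, (mem_DD.1 h).2.2, smul_eq_mul, mul_one] at h1
  rw [h1, one_smul]

/-- If `v` is the only hole of its line through `Z`, only one rich plane contains the line. -/
theorem unique_of_tangent {v : V} (hv : v ∈ holes S fun W => W)
    (ht : ∀ x ∈ holes S fun W => W, x ∈ Submodule.span F {Z, v} → x ∈ Submodule.span F {v})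
    {θ θ' : Dual F V} (h : θ ∈ DD S Z E) (h' : θ' ∈ DD S Z E) (hθ : θ v = 0) (hθ' : θ' v = 0) : θ' = θ := by
  by_contra hne
  have hq : 1 < Fintype.card F := Fintype.one_lt_card
  have h1 := duality C.hV C.hd C.h2 (C.finrank_line hv)
  have h3 := card_le_of_span (C.cone1 (Submodule.span F {Z, v})).1 (mem_holes.1 hv).1 (by
    intro x hx
    rw [Finset.mem_filter] at hx
    exact ht x hx.1 hx.2)
  have h4 := cone_ge_two (F := F) (C.cone2 (Submodule.span F {Z, v}).dualAnnihilator).1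
    (C.cone2 (Submodule.span F {Z, v}).dualAnnihilator).2 (u := θ') (v := θ)
    (by rw [Finset.mem_filter, mem_ann_pair]; exact ⟨(mem_DD.1 h').1, (mem_DD.1 h').2.1, hθ'⟩)
    (by rw [Finset.mem_filter, mem_ann_pair]; exact ⟨(mem_DD.1 h).1, (mem_DD.1 h).2.1, hθ⟩)
    (fun hs => hne (C.eq_of_span h h' hs))
  omega

/-- If only one rich plane contains the line through `Z` and `v`, then `v` is its only hole. -/
theorem tangent_of_unique {v : V} (hv : v ∈ holes S fun W => W) {δ : Dual F V}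
    (hR : ∀ θ ∈ DD S Z E, θ ≠ δ → θ v ≠ 0) :
    ∀ x ∈ holes S fun W => W, x ∈ Submodule.span F {Z, v} → x ∈ Submodule.span F {v} := by
  intro x hx hxs
  by_contra hxv
  have hq : 1 < Fintype.card F := Fintype.one_lt_card
  have h1 := duality C.hV C.hd C.h2 (C.finrank_line hv)
  have h3 := cone_ge_two (F := F) (C.cone1 (Submodule.span F {Z, v})).1 (C.cone1 (Submodule.span F {Z, v})).2
    (u := x) (v := v) (by rw [Finset.mem_filter]; exact ⟨hx, hxs⟩)
    (by rw [Finset.mem_filter]; exact ⟨hv, Submodule.subset_span (by simp)⟩) hxv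
  rw [h1] at h3
  obtain ⟨θ₀, hθ₀, h0v⟩ := C.exists_D hv
  have hδ : θ₀ = δ := by
    by_contra hne
    exact hR θ₀ hθ₀ hne h0v
  subst hδ
  have h4 : ∃ θ ∈ (holes S fun W => W.dualAnnihilator).filter (· ∈ (Submodule.span F {Z, v}).dualAnnihilator),
      θ ∉ Submodule.span F {θ₀} := by
    by_contra hcon
    push Not at hcon
    have := card_le_of_span (C.cone2 (Submodule.span F {Z, v}).dualAnnihilator).1 (mem_holes.1 (mem_DD.1 hθ₀).1).1 hcon
    omega
  obtain ⟨θ, hθ, hθs⟩ := h4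
  rw [Finset.mem_filter, mem_ann_pair] at hθ
  refine hR _ (C.norm hθ.1 hθ.2.1) ?_ (by simp [hθ.2.2])
  intro heq
  apply hθs
  rw [Submodule.mem_span_singleton]
  exact ⟨θ E, by rw [← heq, smul_smul, mul_inv_cancel₀ (C.E_ne hθ.1 hθ.2.1), one_smul]⟩

end Conf

end H8.PS
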