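import Pool.Agent.H8.PS.Plane

/-!
MP_325208 (helper8): the Cayley–Bacharach data of the tangent holes in the coordinates of a rich plane (vectors of `F ^ 3`).
-/

set_option autoImplicit false

open Module Finset
open scoped Classical LinearAlgebra.Projectivization

namespace H8.PS

variable {F : Type*} [Field F] [Fintype F]
variable {V : Type*} [AddCommGroup V] [Module F V] [Fintype V] [FiniteDimensional F V]

/-- The cone of tangent holes of a covered point of a rich plane. -/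
theorem tangentGood (hV : finrank F V = 4) {S : Finset (Submodule F V)} (h2 : ∀ W ∈ S, finrank F W = 2)
    (hd : ∀ W ∈ S, ∀ W' ∈ S, W ≠ W' → W ⊓ W' = ⊥)
    {d : ℕ} (hdS : d + S.card = Fintype.card F ^ 2 + 1) (hdq : d < Fintype.card F)
    {δ : Dual F V} (hδ : δ ∈ holes S fun W => W.dualAnnihilator) {j : (Fin 3 → F) →ₗ[F] V} (J : Coord δ j) :
    ∀ Z ∉ BB S j, ∃ (R : Finset V) (w : V → F) (k m : ℕ), Good R w k m ∧ Fintype.card F ≤ m + d ∧ 1 ≤ m ∧
      R.Nonempty ∧ (∀ v ∈ R, δ v = 0) ∧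
      ∀ X, vec j X ∈ R ↔ X ∈ T (ℙ F (Fin 3 → F)) (BB S j) Z := by
  have hq : 1 < Fintype.card F := Fintype.one_lt_card
  have hdz : (Fintype.card F : ℤ) ^ 2 + 1 - S.card = d := by
    have : ((d + S.card : ℕ) : ℤ) = ((Fintype.card F ^ 2 + 1 : ℕ) : ℤ) := by rw [hdS]
    push_cast at this; linarith
  -- the configuration of a covered point of the plane
  have hconf : ∀ Z ∉ BB S j, ∃ E : V, Conf (F := F) S (vec j Z) E ∧ ∃ δ' ∈ DD S (vec j Z) E, ∃ c : F, c ≠ 0 ∧ δ' = c • δ := by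
    intro Z hZ
    rw [mem_BB, mem_holes] at hZ
    push Not at hZ
    obtain ⟨W, hW, hZW⟩ := hZ (J.vec_ne Z)
    obtain ⟨E, hEW, hE⟩ : ∃ E ∈ W, E ∉ Submodule.span F {vec j Z} := by
      by_contra hcon3
      push Not at hcon3
      have h3 : W ≤ Submodule.span F {vec j Z} := hcon3
      have h4 := Submodule.finrank_mono h3
      rw [h2 W hW, finrank_span_singleton (J.vec_ne Z)] at h4
      omega
    have C : Conf (F := F) S (vec j Z) E := ⟨hV, hd, h2, J.vec_ne Z, ⟨W, hW, hZW, hEW⟩, hE⟩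
    exact ⟨E, C, _, C.norm hδ (J.vec_ker Z), _, inv_ne_zero (C.E_ne hδ (J.vec_ker Z)), rfl⟩
  -- the cone of tangent holes
  intro Z hZ
  obtain ⟨E, C, δ', hδ', c, hc, hcδ⟩ := hconf Z hZ
  have hker : ∀ v, δ' v = 0 → δ v = 0 := by
    intro v hv
    rw [hcδ, LinearMap.smul_apply, smul_eq_mul] at hv
    exact (mul_eq_zero.1 hv).resolve_left hc
  obtain ⟨W, hW, hZW, -⟩ := C.ex
  have hD := card_DD hV hd h2 (E := E) hW hZW (J.vec_ne Z)
  rw [hdz] at hD
  have hD' : (DD S (vec j Z) E).card ≤ d := by exact_mod_cast hD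
  have hDpos : 1 ≤ (DD S (vec j Z) E).card := Finset.card_pos.2 ⟨_, hδ'⟩
  have hk1 : ((DD S (vec j Z) E).erase δ').card + 1 = (DD S (vec j Z) E).card := by
    rw [Finset.card_erase_of_mem hδ']; omega
  obtain ⟨m, hm⟩ : ∃ m, ((DD S (vec j Z) E).erase δ').card + m = Fintype.card F - 1 :=
    ⟨Fintype.card F - 1 - ((DD S (vec j Z) E).erase δ').card, by omega⟩
  refine ⟨RR S (vec j Z) E δ', _, _, m, C.good hδ' hm, by omega, by omega, C.RR_nonempty hδ' ?_,
    fun v hv => hker v (C.RR_ker hv), ?_⟩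
  · rw [hdz]
    have : (d : ℤ) < Fintype.card F := by exact_mod_cast hdq
    linarith
  intro X
  have hTdef : X ∈ T (ℙ F (Fin 3 → F)) (BB S j) Z ↔ X ∈ BB S j ∧
      ∀ l : ℙ F (Fin 3 → F), Z ∈ l → X ∈ l → ∀ Y ∈ BB S j, Y ∈ l → Y = X := mem_T
  rw [hTdef, mem_RR]
  constructor
  · rintro ⟨hX, hu⟩
    refine ⟨mem_BB.2 hX, fun l hZl hXl Y hY hYl => ?_⟩
    have hne : X ≠ Z := by rintro rfl; exact hZ (mem_BB.2 hX)
    have h5 := (line_span hne hZl hXl).1 hYl
    have h6 := C.tangent_of_unique hX hu _ (mem_BB.1 hY) (J.span_iff.2 h5)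
    exact J.eq_of_span h6
  · rintro ⟨hX, ht⟩
    refine ⟨mem_BB.1 hX, fun θ hθ hne h0 => hne ?_⟩
    have hXZ : X ≠ Z := by rintro rfl; exact hZ hX
    refine C.unique_of_tangent (mem_BB.1 hX) ?_ hδ' hθ ?_ h0
    · intro x hx hxs
      have hx0 : x ≠ 0 := (mem_holes.1 hx).1
      have hxδ : δ x = 0 := by
        obtain ⟨a, b, rfl⟩ := Submodule.mem_span_pair.1 hxs
        simp [J.vec_ker]
      obtain ⟨Y, c', hc', hY⟩ := J.exists_point hx0 hxδ
      have hYB : Y ∈ BB S j := by rw [mem_BB, hY]; exact smul_mem_holes hx hc'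
      let l : ℙ F (Fin 3 → F) := Configuration.HasLines.mkLine hXZ
      have hl := Configuration.HasLines.mkLine_ax (P := ℙ F (Fin 3 → F)) (L := ℙ F (Fin 3 → F)) hXZ
      have hYl : Y ∈ l := by
        rw [line_span hXZ hl.2 hl.1, ← J.span_iff, hY]
        exact Submodule.smul_mem _ _ hxs
      have hYX := ht l hl.2 hl.1 Y hYB hYl
      rw [hYX] at hY
      rw [Submodule.mem_span_singleton]
      exact ⟨c'⁻¹, by rw [hY, smul_smul, inv_mul_cancel₀ hc', one_smul]⟩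
    · rw [hcδ, LinearMap.smul_apply, J.vec_ker, smul_zero]

/-- pulling a good cone back to coordinates -/
theorem Coord.good3 {δ : Dual F V} {j : (Fin 3 → F) →ₗ[F] V} (J : Coord δ j) {R : Finset V} {w : V → F} {k m : ℕ}
    (hg : Good R w k m) (hR : ∀ v ∈ R, δ v = 0) :
    Good (Finset.univ.filter fun x : Fin 3 → F => j x ∈ R) (fun x => w (j x)) k m := by
  refine ⟨hg.deg, ?_, ?_, ?_, ?_, ?_⟩
  · intro x hx h0
    rw [Finset.mem_filter] at hx
    subst h0
    exact hg.ne _ hx.2 (map_zero _)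
  · intro x hx c hc
    rw [Finset.mem_filter] at hx ⊢
    exact ⟨Finset.mem_univ _, by rw [map_smul]; exact hg.cone _ hx.2 c hc⟩
  · intro x hx
    rw [Finset.mem_filter] at hx
    exact hg.wne _ hx.2
  · intro x c hc
    simp only [map_smul]
    exact hg.whom _ c hc
  · intro L
    obtain ⟨g, hgj⟩ := LinearMap.exists_leftInverse_of_injective j (LinearMap.ker_eq_bot.2 J.inj)
    have hgx : ∀ x, g (j x) = x := fun x => by
      have := congrArg (fun f => f x) hgj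
      simpa using this
    have h1 := hg.id fun i => (L i).comp g
    refine Eq.trans ?_ h1
    refine Finset.sum_bij (fun x _ => j x) ?_ ?_ ?_ ?_
    · intro x hx
      exact (Finset.mem_filter.1 hx).2
    · intro x _ y _ h
      exact J.inj h
    · intro v hv
      obtain ⟨x, rfl⟩ := (J.range v).1 (hR v hv)
      exact ⟨x, Finset.mem_filter.2 ⟨Finset.mem_univ _, hv⟩, rfl⟩
    · intro x _
      simp only [LinearMap.comp_apply, hgx]

/-- **Interface in coordinates**: for every non-hole point `Z` of a rich plane the tangent holes form a good cone of `F ^ 3`. -/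
theorem good3 (hV : finrank F V = 4) {S : Finset (Submodule F V)} (h2 : ∀ W ∈ S, finrank F W = 2)
    (hd : ∀ W ∈ S, ∀ W' ∈ S, W ≠ W' → W ⊓ W' = ⊥)
    {d : ℕ} (hdS : d + S.card = Fintype.card F ^ 2 + 1) (hdq : d < Fintype.card F)
    {δ : Dual F V} (hδ : δ ∈ holes S fun W => W.dualAnnihilator) {j : (Fin 3 → F) →ₗ[F] V} (J : Coord δ j)
    (Z : ℙ F (Fin 3 → F)) (hZ : Z ∉ BB S j) :
    ∃ (R : Finset (Fin 3 → F)) (w : (Fin 3 → F) → F) (k m : ℕ), Good R w k m ∧ Fintype.card F ≤ m + d ∧ 1 ≤ m ∧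
      R.Nonempty ∧ ∀ X : ℙ F (Fin 3 → F), X.rep ∈ R ↔ X ∈ T (ℙ F (Fin 3 → F)) (BB S j) Z := by
  obtain ⟨R, w, k, m, hg, hm, hm1, hne, hRδ, hRT⟩ := tangentGood hV h2 hd hdS hdq hδ J Z hZ
  refine ⟨_, _, k, m, J.good3 hg hRδ, hm, hm1, ?_, ?_⟩
  · obtain ⟨v, hv⟩ := hne
    obtain ⟨x, rfl⟩ := (J.range v).1 (hRδ v hv)
    exact ⟨x, Finset.mem_filter.2 ⟨Finset.mem_univ _, hv⟩⟩
  · intro X
    rw [Finset.mem_filter, ← hRT]
    simp [vec]

/-- Version with existence of the plane: `PlaneData` and the good cones in coordinates. -/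
theorem exists_planeData3 (hV : finrank F V = 4) {S : Finset (Submodule F V)} (h2 : ∀ W ∈ S, finrank F W = 2)
    (hd : ∀ W ∈ S, ∀ W' ∈ S, W ≠ W' → W ⊓ W' = ⊥)
    (hmax : ∀ U : Submodule F V, finrank F U = 2 → U ∉ S → ∃ W ∈ S, U ⊓ W ≠ ⊥)
    (hh : ∃ v : V, v ≠ 0 ∧ ∀ W ∈ S, v ∉ W) {d : ℕ} (hdS : d + S.card = Fintype.card F ^ 2 + 1) (hdq : d < Fintype.card F) :
    ∃ B : Finset (ℙ F (Fin 3 → F)), PlaneData (ℙ F (Fin 3 → F)) (ℙ F (Fin 3 → F)) (Fintype.card F) d B ∧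
      ∀ Z ∉ B, ∃ (R : Finset (Fin 3 → F)) (w : (Fin 3 → F) → F) (k m : ℕ), Good R w k m ∧ Fintype.card F ≤ m + d ∧ 1 ≤ m ∧
        R.Nonempty ∧ ∀ X : ℙ F (Fin 3 → F), X.rep ∈ R ↔ X ∈ T (ℙ F (Fin 3 → F)) B Z := by
  obtain ⟨v₁, hv₁0, hv₁⟩ := hh
  have h₁ : v₁ ∈ holes S fun W => W := mem_holes.2 ⟨hv₁0, hv₁⟩
  obtain ⟨u, hu⟩ : ∃ u : V, u ∉ Submodule.span F {v₁} := by
    by_contra hcon
    push Not at hcon
    have h3 : (⊤ : Submodule F V) ≤ Submodule.span F {v₁} := fun x _ => hcon x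
    have h4 := Submodule.finrank_mono h3
    rw [finrank_top, hV, finrank_span_singleton hv₁0] at h4
    omega
  have h3 := duality hV hd h2 (finrank_span_pair hv₁0 hu)
  have h4 : 0 < ((holes S fun W => W).filter (· ∈ Submodule.span F {v₁, u})).card := by
    refine Finset.card_pos.2 ⟨v₁, ?_⟩
    rw [Finset.mem_filter]
    exact ⟨h₁, Submodule.subset_span (by simp)⟩
  rw [h3] at h4
  obtain ⟨δ, hδ⟩ := Finset.card_pos.1 h4
  rw [Finset.mem_filter] at hδ
  have hK : finrank F (LinearMap.ker δ) = 3 := by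
    have := Module.Dual.finrank_ker_add_one_of_ne_zero (K := F) (f := δ) (mem_holes.1 hδ.1).1
    omega
  obtain ⟨j, J⟩ := exists_coord hK
  exact ⟨BB S j, planeData hV h2 hd hmax hdS hdq hδ.1 J, fun Z hZ => good3 hV h2 hd hdS hdq hδ.1 J Z hZ⟩

end H8.PS
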