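import Pool.Agent.H8.PS.Bridge

/-!
MP_325208 (helper8): projective coordinates in a hyperplane.
-/

set_option autoImplicit false

open Module Finset
open scoped Classical LinearAlgebra.Projectivization

namespace H8.PS

variable {F : Type*} [Field F] [Fintype F]
variable {V : Type*} [AddCommGroup V] [Module F V] [Fintype V] [FiniteDimensional F V]

/-- linear coordinates in the hyperplane `δ = 0` -/
structure Coord (δ : Dual F V) (j : (Fin 3 → F) →ₗ[F] V) : Prop where
  inj : Function.Injective j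
  range : ∀ v, δ v = 0 ↔ ∃ x, j x = v

theorem exists_coord {δ : Dual F V} (hK : finrank F (LinearMap.ker δ) = 3) : ∃ j, Coord δ j := by
  let b := finBasisOfFinrankEq F (LinearMap.ker δ) hK
  refine ⟨(LinearMap.ker δ).subtype ∘ₗ b.equivFun.symm.toLinearMap, ?_, ?_⟩
  · intro x y h
    have h1 : b.equivFun.symm x = b.equivFun.symm y := Subtype.ext h
    exact b.equivFun.symm.injective h1
  · intro v
    constructor
    · intro hv
      exact ⟨b.equivFun ⟨v, hv⟩, by simp⟩
    · rintro ⟨x, rfl⟩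
      exact (b.equivFun.symm x).2

noncomputable instance : Fintype (ℙ F (Fin 3 → F)) := Fintype.ofFinite _

/-- the vector of a point -/
noncomputable def vec (j : (Fin 3 → F) →ₗ[F] V) (p : ℙ F (Fin 3 → F)) : V := j p.rep

theorem mem_line {p l : ℙ F (Fin 3 → F)} : p ∈ l ↔ p.rep ⬝ᵥ l.rep = 0 := by
  rw [Configuration.ofField.mem_iff]
  conv_lhs => rw [← p.mk_rep, ← l.mk_rep]
  exact Projectivization.orthogonal_mk _ _

theorem mk_eq_of_smul {p p' : ℙ F (Fin 3 → F)} {c : F} (h : p.rep = c • p'.rep) : p = p' := by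
  rw [← p.mk_rep, ← p'.mk_rep, Projectivization.mk_eq_mk_iff']
  exact ⟨c, h.symm⟩

/-- the plane of vectors orthogonal to a line vector -/
noncomputable def Kl (l : ℙ F (Fin 3 → F)) : Submodule F (Fin 3 → F) where
  carrier := {x | x ⬝ᵥ l.rep = 0}
  add_mem' := by intro a b ha hb; simp only [Set.mem_setOf_eq] at *; rw [add_dotProduct, ha, hb, add_zero]
  zero_mem' := by simp
  smul_mem' := by intro c x hx; simp only [Set.mem_setOf_eq] at *; rw [smul_dotProduct, hx, smul_zero]

theorem mem_Kl {l : ℙ F (Fin 3 → F)} {x : Fin 3 → F} : x ∈ Kl l ↔ x ⬝ᵥ l.rep = 0 := Iff.rfl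

/-- the linear form of a line -/
noncomputable def fl (l : ℙ F (Fin 3 → F)) : (Fin 3 → F) →ₗ[F] F where
  toFun x := x ⬝ᵥ l.rep
  map_add' := by intro a b; rw [add_dotProduct]
  map_smul' := by intro c x; rw [smul_dotProduct, RingHom.id_apply]

theorem fl_ne (l : ℙ F (Fin 3 → F)) : fl l ≠ 0 := by
  intro h
  apply l.rep_nonzero
  rw [← dotProduct_eq_zero_iff]
  intro w
  have : fl l w = 0 := by rw [h]; rfl
  rw [dotProduct_comm]; exact this

theorem finrank_Kl (l : ℙ F (Fin 3 → F)) : finrank F (Kl l) = 2 := by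
  have h1 : Kl l = LinearMap.ker (fl l) := by ext x; rfl
  have h2 := Module.Dual.finrank_ker_add_one_of_ne_zero (K := F) (f := fl l) (fl_ne l)
  rw [h1]
  simp at h2
  omega

/-- a plane of `F ^ 3` lies in some `Kl` -/
theorem exists_Kl {U : Submodule F (Fin 3 → F)} (hU : finrank F U ≤ 2) : ∃ l : ℙ F (Fin 3 → F), U ≤ Kl l := by
  have hlt : U < ⊤ := by
    rw [lt_top_iff_ne_top]
    rintro rfl
    rw [finrank_top] at hU
    simp at hU
  obtain ⟨f, hf, hle⟩ := Submodule.exists_le_ker_of_lt_top U hlt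
  let w : Fin 3 → F := fun i => f (Pi.single i 1)
  have hfw : ∀ x, f x = x ⬝ᵥ w := by
    intro x
    conv_lhs => rw [LinearMap.pi_apply_eq_sum_univ f x]
    simp only [dotProduct, w, smul_eq_mul]
    refine Finset.sum_congr rfl fun i _ => ?_
    congr 2
    ext k
    simp [Pi.single_apply, eq_comm]
  have hw : w ≠ 0 := by
    intro h
    apply hf
    ext x
    simp only [LinearMap.comp_apply, LinearMap.zero_apply]
    rw [hfw, h, dotProduct_zero]
  refine ⟨Projectivization.mk F w hw, fun x hx => ?_⟩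
  obtain ⟨a, ha⟩ := Projectivization.exists_smul_eq_mk_rep F w hw
  rw [mem_Kl, ← ha]
  have : x ⬝ᵥ w = 0 := by rw [← hfw]; exact hle hx
  change x ⬝ᵥ ((a : F) • w) = 0
  rw [dotProduct_smul, this, smul_zero]

theorem line_span {l Z X Y : ℙ F (Fin 3 → F)} (hne : X ≠ Z) (hZ : Z ∈ l) (hX : X ∈ l) :
    Y ∈ l ↔ Y.rep ∈ Submodule.span F {Z.rep, X.rep} := by
  have h0 : X.rep ∉ Submodule.span F {Z.rep} := by
    intro h
    obtain ⟨c, hc⟩ := Submodule.mem_span_singleton.1 h
    exact hne (mk_eq_of_smul hc.symm)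
  have h1 : Submodule.span F {Z.rep, X.rep} = Kl l := by
    refine Submodule.eq_of_le_of_finrank_le ?_ (by rw [finrank_Kl, finrank_span_pair Z.rep_nonzero h0])
    rw [Submodule.span_le]
    rintro x (rfl | hx)
    · exact mem_line.1 hZ
    · rw [Set.mem_singleton_iff] at hx; subst hx; exact mem_line.1 hX
  rw [h1, mem_line, mem_Kl]

namespace Coord

variable {δ : Dual F V} {j : (Fin 3 → F) →ₗ[F] V} (J : Coord δ j)
include J

theorem vec_ne (p : ℙ F (Fin 3 → F)) : vec j p ≠ 0 := by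
  intro h
  have : j p.rep = j 0 := by rw [map_zero]; exact h
  exact p.rep_nonzero (J.inj this)

theorem vec_ker (p : ℙ F (Fin 3 → F)) : δ (vec j p) = 0 := (J.range _).2 ⟨_, rfl⟩

theorem eq_of_span {p p' : ℙ F (Fin 3 → F)} (h : vec j p ∈ Submodule.span F {vec j p'}) : p = p' := by
  obtain ⟨c, hc⟩ := Submodule.mem_span_singleton.1 h
  refine mk_eq_of_smul (c := c) (J.inj ?_)
  rw [map_smul]; exact hc.symm

theorem exists_point {v : V} (hv : v ≠ 0) (hδ : δ v = 0) : ∃ p : ℙ F (Fin 3 → F), ∃ c : F, c ≠ 0 ∧ vec j p = c • v := by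
  obtain ⟨x, rfl⟩ := (J.range v).1 hδ
  have hx : x ≠ 0 := by rintro rfl; exact hv (map_zero _)
  obtain ⟨a, ha⟩ := Projectivization.exists_smul_eq_mk_rep F x hx
  refine ⟨Projectivization.mk F x hx, a, a.ne_zero, ?_⟩
  rw [vec, ← ha]
  change j ((a : F) • x) = _
  rw [map_smul]

theorem card_cone {T : Finset V} (h0 : ∀ v ∈ T, v ≠ 0) (hc : ∀ v ∈ T, ∀ c : F, c ≠ 0 → c • v ∈ T) (hδ : ∀ v ∈ T, δ v = 0) :
    T.card = (Finset.univ.filter fun p : ℙ F (Fin 3 → F) => vec j p ∈ T).card * (Fintype.card F - 1) := by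
  have h1 : T = ((Finset.univ.filter fun p : ℙ F (Fin 3 → F) => vec j p ∈ T) ×ˢ
      (Finset.univ.filter fun c : F => c ≠ 0)).image fun x => x.2 • vec j x.1 := by
    ext v
    rw [Finset.mem_image]
    constructor
    · intro hv
      obtain ⟨p, c, hc0, hp⟩ := J.exists_point (h0 v hv) (hδ v hv)
      refine ⟨(p, c⁻¹), ?_, ?_⟩
      · simp only [Finset.mem_product, Finset.mem_filter, Finset.mem_univ, true_and]
        exact ⟨by rw [hp]; exact hc v hv c hc0, inv_ne_zero hc0⟩
      · simp only [hp, smul_smul, inv_mul_cancel₀ hc0, one_smul]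
    · rintro ⟨⟨p, c⟩, hx, rfl⟩
      simp only [Finset.mem_product, Finset.mem_filter, Finset.mem_univ, true_and] at hx
      exact hc _ hx.1 c hx.2
  have h2 : (((Finset.univ.filter fun p : ℙ F (Fin 3 → F) => vec j p ∈ T) ×ˢ
      (Finset.univ.filter fun c : F => c ≠ 0)).image fun x => x.2 • vec j x.1).card =
      (Finset.univ.filter fun p : ℙ F (Fin 3 → F) => vec j p ∈ T).card * (Fintype.card F - 1) := by
    rw [Finset.card_image_of_injOn, Finset.card_product, card_ne_zero_filter]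
    rintro ⟨p, c⟩ hx ⟨p', c'⟩ hx' heq
    simp only [Finset.coe_product, Set.mem_prod, Finset.mem_coe, Finset.mem_filter, Finset.mem_univ, true_and] at hx hx' heq
    have h3 : p = p' := by
      apply J.eq_of_span
      rw [Submodule.mem_span_singleton]
      exact ⟨c⁻¹ * c', by rw [mul_smul, ← heq, smul_smul, inv_mul_cancel₀ hx.2, one_smul]⟩
    subst h3
    have h4 := smul_left_injective F (J.vec_ne p) heq
    rw [h4]
  rw [← h2, ← h1]

theorem span_iff {Z X Y : ℙ F (Fin 3 → F)} :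
    vec j Y ∈ Submodule.span F {vec j Z, vec j X} ↔ Y.rep ∈ Submodule.span F {Z.rep, X.rep} := by
  rw [Submodule.mem_span_pair, Submodule.mem_span_pair]
  constructor
  · rintro ⟨a, b, h⟩
    refine ⟨a, b, J.inj ?_⟩
    rw [map_add, map_smul, map_smul]; exact h
  · rintro ⟨a, b, h⟩
    refine ⟨a, b, ?_⟩
    rw [vec, vec, vec, ← h, map_add, map_smul, map_smul]

/-- the plane of `V` of a line -/
theorem finrank_map (l : ℙ F (Fin 3 → F)) : finrank F ((Kl l).map j) = 2 := by
  rw [← (Submodule.equivMapOfInjective j J.inj (Kl l)).finrank_eq, finrank_Kl]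

theorem vec_mem_map {p l : ℙ F (Fin 3 → F)} : vec j p ∈ (Kl l).map j ↔ p ∈ l := by
  rw [mem_line, Submodule.mem_map]
  constructor
  · rintro ⟨x, hx, h⟩
    rw [← J.inj h]; exact hx
  · intro h
    exact ⟨_, h, rfl⟩

theorem exists_line (a b : V) : ∃ l : ℙ F (Fin 3 → F), ∀ p : ℙ F (Fin 3 → F), vec j p ∈ Submodule.span F {a, b} → p ∈ l := by
  have h1 : finrank F ((Submodule.span F {a, b}).comap j) ≤ 2 := by
    rw [(Submodule.equivMapOfInjective j J.inj _).finrank_eq]
    exact (Submodule.finrank_mono (Submodule.map_comap_le _ _)).trans (finrank_span_pair_le a b)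
  obtain ⟨l, hl⟩ := exists_Kl h1
  exact ⟨l, fun p hp => mem_line.2 (hl hp)⟩

theorem exists_dual (l : ℙ F (Fin 3 → F)) : ∃ L : Dual F V, ∀ p : ℙ F (Fin 3 → F), L (vec j p) = 0 ↔ p ∈ l := by
  obtain ⟨g, hg⟩ := LinearMap.exists_leftInverse_of_injective j (LinearMap.ker_eq_bot.2 J.inj)
  refine ⟨(fl l).comp g, fun p => ?_⟩
  have : g (vec j p) = p.rep := by
    have := congrArg (fun f => f p.rep) hg
    simpa [vec] using this
  rw [LinearMap.comp_apply, this, mem_line]
  rfl

end Coord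

end H8.PS
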